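import Pool.Agent.N456.CN.MuRev

/-!
Counting the residues whose word is atypical.
-/

set_option autoImplicit false

open Filter Set MeasureTheory
open scoped Topology ENNReal NNReal

namespace Pool.Agent.N456.CN

open Pool.Agent.W811.Stu Pool.Agent.W174.Stu Pool.Agent.R357.CF

/-- the word `v` is atypical for a block of `B` -/
def Aty (B : Finset (List ℕ)) (ε : ℝ) (n0 : ℕ) (v : List ℕ) : Prop :=
  ∃ c ∈ B, ε * v.length + n0 + c.length < |(oc c v : ℝ) - v.length * mu c|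

lemma Q_take_mono {W : List ℕ} (hW : Good W) {m n : ℕ} (h : m ≤ n) : Q (W.take m) ≤ Q (W.take n) := by
  have e : W.take n = W.take m ++ (W.take n).drop m := by
    conv_lhs => rw [← List.take_append_drop m (W.take n)]
    rw [List.take_take, min_eq_left h]
  rw [e]
  exact Q_le_app (good_drop (good_take hW n) m)

lemma cs_oc (s : ℕ → ℕ) (c : List ℕ) (N : ℕ) : |(cs s c N : ℝ) - oc c (pre s N)| ≤ c.length := by
  have h1 : (oc c (pre s N) : ℝ) ≤ cs s c N := by exact_mod_cast oc_pre_le s c N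
  have h2 : (cs s c N : ℝ) ≤ oc c (pre s N) + c.length := by exact_mod_cast le_oc_pre s c N
  rw [abs_le]
  constructor <;> linarith

lemma cntA {B : Finset (List ℕ)} {ε : ℝ} {n0 : ℕ} {η : ℝ} (hη : 0 ≤ η)
    (hBad : volume (Bad B ε n0) ≤ ENNReal.ofReal η) {w0 : List ℕ} (hw0 : Good w0) {q : ℕ} (hq : 0 < q)
    (S : Finset ℕ) (hS : ∀ P ∈ S, P < q ∧ ∃ v r : List ℕ, Wd q P = w0 ++ (v ++ r) ∧
      4 * (Q (w0 ++ v)) ^ 2 ≤ q ∧ Aty B ε n0 v) :
    (S.card : ℝ) ≤ 2 * (q * (η / (Q w0 : ℝ) ^ 2)) := by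
  have hQ0 : (1:ℝ) ≤ Q w0 := by exact_mod_cast Q_pos hw0
  have hq' : (0:ℝ) < q := by exact_mod_cast hq
  apply grid (E := phi w0 '' Bad B ε n0) hq S (by positivity)
  · refine (vol_image hw0 (fun z hz => hz.1)).trans ?_
    calc ENNReal.ofReal (1 / (Q w0 : ℝ) ^ 2) * volume (Bad B ε n0)
        ≤ ENNReal.ofReal (1 / (Q w0 : ℝ) ^ 2) * ENNReal.ofReal η := by gcongr
      _ = ENNReal.ofReal (η / (Q w0 : ℝ) ^ 2) := by
          rw [← ENNReal.ofReal_mul (by positivity)]; congr 1; ring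
  · intro P hP
    obtain ⟨hPq, v, r, hW, hsm, hat⟩ := hS P hP
    obtain ⟨hg, -, hval⟩ := Wd_spec hPq
    have hgv : Good (v ++ r) := by rw [hW] at hg; exact Good.right hg
    have hv : Good v := Good.left hgv
    have hr : Good r := Good.right hgv
    have hu : Good (w0 ++ v) := hw0.append hv
    set u := w0 ++ v with hu_def
    have hval2 : (P:ℝ) / q = phi u (phi r 0) := by
      rw [← hval, hW, ← List.append_assoc, phi_append]
    have hr0 := (phi_par hr).1
    have hQu : (1:ℝ) ≤ Q u := by exact_mod_cast Q_pos hu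
    have hQ'u : (Q' u : ℝ) ≤ Q u := by exact_mod_cast Q'_le hu
    have hQ'0 : (0:ℝ) ≤ Q' u := by positivity
    have hsm' : 4 * (Q u : ℝ) ^ 2 ≤ q := by exact_mod_cast hsm
    refine ⟨min (phi u 0) (phi u 1), max (phi u 0) (phi u 1), ?_, ?_, ?_, ?_, ?_⟩
    · exact le_min (phi_mem_Icc hu ⟨le_rfl, zero_le_one⟩).1 (phi_mem_Icc hu ⟨zero_le_one, le_rfl⟩).1
    · rw [hval2]; exact (phi_uIcc hu le_rfl hr0.1 hr0.2).1
    · rw [hval2]; exact (phi_uIcc hu le_rfl hr0.1 hr0.2).2
    · have h1 : max (phi u 0) (phi u 1) - min (phi u 0) (phi u 1) = |phi u 1 - phi u 0| := by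
        rw [max_sub_min_eq_abs]
      rw [h1, phi_len hu zero_le_one, mul_one, div_le_div_iff₀ hq' (by positivity)]
      nlinarith
    · intro z hz _
      obtain ⟨t, ht, he⟩ := between hu le_rfl zero_lt_one le_rfl hz
      refine ⟨phi v t, ?_, by rw [← he, hu_def, phi_append]⟩
      obtain ⟨c, hc, hlt⟩ := hat
      refine ⟨phi_mem hv ht, c, hc, v.length, ?_⟩
      have h2 := cs_oc (dig (phi v t)) c v.length
      rw [(dig_phi hv ht).1] at h2
      have h3 := abs_sub_abs_le_abs_sub ((oc c v : ℝ) - v.length * mu c)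
        ((cs (dig (phi v t)) c v.length : ℝ) - v.length * mu c)
      have h4 : ((oc c v : ℝ) - v.length * mu c) - ((cs (dig (phi v t)) c v.length : ℝ) - v.length * mu c) =
        -((cs (dig (phi v t)) c v.length : ℝ) - oc c v) := by ring
      rw [h4, abs_neg] at h3
      linarith

lemma cntB {C : ℝ} (hC : 0 < C) {ns : ℕ} {η : ℝ} (hη : 0 ≤ η)
    (hBad : volume {z | z ∈ Ioo (0:ℝ) 1 ∧ Irrational z ∧ Real.exp (C * ns) < Q (pre (dig z) ns)} ≤
      ENNReal.ofReal η) {q : ℕ} (hq : 4 * (Real.exp (C * ns)) ^ 2 ≤ q)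
    (S : Finset ℕ) (hS : ∀ P ∈ S, P < q ∧
      ¬ (ns ≤ (Wd q P).length ∧ 4 * (Q ((Wd q P).take ns)) ^ 2 ≤ q)) :
    (S.card : ℝ) ≤ 2 * (q * η) := by
  classical
  set X := Real.exp (C * ns) with hX
  have hX1 : 1 ≤ X := Real.one_le_exp (by positivity)
  have hq4 : (4:ℝ) ≤ q := by nlinarith
  have hq' : (0:ℝ) < q := by linarith
  have hq0 : 0 < q := by exact_mod_cast hq'
  have hq4' : 4 ≤ q := by exact_mod_cast hq4
  apply grid hq0 S hη hBad
  intro P hP
  obtain ⟨hPq, hnot⟩ := hS P hP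
  obtain ⟨hg, -, hval⟩ := Wd_spec hPq
  set W := Wd q P with hW
  -- the longest prefix with small denominator
  have hex : ∃ m, m ≤ W.length ∧ 4 * (Q (W.take m)) ^ 2 ≤ q := ⟨0, by omega, by simpa [Q, cq] using hq4'⟩
  obtain ⟨m, hm1, hm2, hm3⟩ : ∃ m, m ≤ W.length ∧ 4 * (Q (W.take m)) ^ 2 ≤ q ∧
      (m < W.length → ¬ 4 * (Q (W.take (m + 1))) ^ 2 ≤ q) := by
    set m := Nat.findGreatest (fun m => 4 * (Q (W.take m)) ^ 2 ≤ q) W.length with hm
    refine ⟨m, Nat.findGreatest_le _, ?_, ?_⟩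
    · obtain ⟨m0, h1, h2⟩ := hex
      exact Nat.findGreatest_spec (P := fun m => 4 * (Q (W.take m)) ^ 2 ≤ q) h1 h2
    · intro hlt
      exact Nat.findGreatest_is_greatest (P := fun m => 4 * (Q (W.take m)) ^ 2 ≤ q) (Nat.lt_succ_self _) hlt
  have hmns : m < ns := by
    by_contra hc
    rw [not_lt] at hc
    apply hnot
    refine ⟨hc.trans hm1, le_trans ?_ hm2⟩
    have := Q_take_mono hg hc
    gcongr
  set u := W.take m with hu_def
  have hu : Good u := good_take hg m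
  have hul : u.length = m := by rw [hu_def, List.length_take]; omega
  have hQu : (1:ℝ) ≤ Q u := by exact_mod_cast Q_pos hu
  have hQ'u : (Q' u : ℝ) ≤ Q u := by exact_mod_cast Q'_le hu
  have hQ'0 : (0:ℝ) ≤ Q' u := by positivity
  have hsm' : 4 * (Q u : ℝ) ^ 2 ≤ q := by exact_mod_cast hm2
  -- the threshold digit
  have hexa : ∃ a : ℕ, 1 ≤ a ∧ X < (a:ℝ) * Q u + Q' u := by
    obtain ⟨a, ha⟩ := exists_nat_gt X
    refine ⟨a + 1, by omega, ?_⟩
    push_cast
    have : (0:ℝ) ≤ a := by positivity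
    nlinarith
  set a0 := Nat.find hexa with ha0
  obtain ⟨ha1, ha2⟩ := Nat.find_spec hexa
  rw [← ha0] at ha1 ha2
  have ha3 : a0 = 1 ∨ ((a0:ℝ) - 1) * Q u + Q' u ≤ X := by
    rcases Nat.lt_or_ge 1 a0 with h | h
    · right
      have := Nat.find_min hexa (m := a0 - 1) (by omega)
      rw [not_and] at this
      have h2 := this (by omega)
      rw [not_lt, Nat.cast_sub (by omega)] at h2
      simpa using h2
    · left; omega
  have ha0' : (1:ℝ) ≤ a0 := by exact_mod_cast ha1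
  set t0 : ℝ := 1 / a0 with ht0
  have ht0p : 0 < t0 := by positivity
  have ht01 : t0 ≤ 1 := by rw [ht0, div_le_one (by positivity)]; exact ha0'
  -- the value
  have hval2 : ∃ t, 0 ≤ t ∧ t ≤ t0 ∧ (P:ℝ) / q = phi u t := by
    rcases hm1.eq_or_lt with he | hlt
    · refine ⟨0, le_rfl, ht0p.le, ?_⟩
      have : u = W := by rw [hu_def, he, List.take_length]
      rw [this, hval]
    · have hW2 : W = u ++ (W[m] :: W.drop (m + 1)) := by
        rw [hu_def, List.cons_getElem_drop_succ, List.take_append_drop]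
      have hr := good_drop hg (m + 1)
      have hr0 := (phi_par hr).1
      have hge := hm3 hlt
      have htk : W.take (m + 1) = u ++ [W[m]] := by
        rw [hu_def, List.take_append_getElem]
      rw [htk, Q_append, not_le] at hge
      have hge' : (q:ℝ) < 4 * (((W[m] : ℕ) : ℝ) * Q u + Q' u) ^ 2 := by exact_mod_cast hge
      have hgX : X < ((W[m] : ℕ) : ℝ) * Q u + Q' u := by
        have h0 : (0:ℝ) ≤ ((W[m] : ℕ) : ℝ) * Q u + Q' u := by positivity
        by_contra hc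
        rw [not_lt] at hc
        nlinarith
      have hWm : 1 ≤ W[m] := hg _ (List.getElem_mem _)
      have hmin : a0 ≤ W[m] := Nat.find_min' hexa ⟨hWm, hgX⟩
      have hmin' : (a0:ℝ) ≤ ((W[m] : ℕ) : ℝ) := by exact_mod_cast hmin
      refine ⟨phi (W[m] :: W.drop (m + 1)) 0, ?_, ?_, ?_⟩
      · exact (phi_par (by intro e he; rcases List.mem_cons.1 he with rfl | he; exacts [hWm, hr e he])).1.1
      · simp only [phi]
        rw [ht0]
        apply one_div_le_one_div_of_le (by positivity)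
        linarith [hr0.1]
      · rw [← phi_append, ← hW2, hval]
  obtain ⟨t, htt0, htt1, hPt⟩ := hval2
  have hqX : 4 * X ^ 2 ≤ q := hq
  refine ⟨min (phi u 0) (phi u t0), max (phi u 0) (phi u t0), ?_, ?_, ?_, ?_, ?_⟩
  · exact le_min (phi_mem_Icc hu ⟨le_rfl, zero_le_one⟩).1 (phi_mem_Icc hu ⟨ht0p.le, ht01⟩).1
  · rw [hPt]; exact (phi_uIcc hu le_rfl htt0 htt1).1
  · rw [hPt]; exact (phi_uIcc hu le_rfl htt0 htt1).2
  · have h1 : max (phi u 0) (phi u t0) - min (phi u 0) (phi u t0) = |phi u t0 - phi u 0| := by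
      rw [max_sub_min_eq_abs]
    have h2 : t0 / (((Q u : ℝ) + Q' u * t0) * Q u) = 1 / (((a0:ℝ) * Q u + Q' u) * Q u) := by
      rw [ht0]; field_simp
    rw [h1, phi_len hu ht0p.le, h2, div_le_div_iff₀ hq' (by positivity), one_mul]
    rcases ha3 with h3 | h3
    · rw [h3]; push_cast; nlinarith
    · have h4 : (a0:ℝ) * Q u + Q' u ≤ X + Q u := by linarith
      calc 2 * (((a0:ℝ) * Q u + Q' u) * Q u) ≤ 2 * ((X + Q u) * Q u) := by gcongr
        _ ≤ q := by nlinarith [sq_nonneg (X - Q u)]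
  · intro z hz hzi
    obtain ⟨t, ht, he⟩ := between hu le_rfl ht0p ht01 hz
    have ht' : t ∈ Ioo (0:ℝ) 1 := ⟨ht.1, ht.2.trans_le ht01⟩
    refine ⟨by rw [← he]; exact phi_mem hu ht', hzi, ?_⟩
    have hzm : z ∈ Ioo (0:ℝ) 1 := by rw [← he]; exact phi_mem hu ht'
    obtain ⟨hd1, hd2⟩ := dig_phi hu ht'
    rw [he] at hd1 hd2
    have hpre : pre (dig z) (m + 1) = u ++ [dig t 0] := by
      rw [pre_succ]
      congr 1
      · rw [← hul]; exact hd1
      · have := hd2 0
        rw [hul, add_zero] at this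
        rw [this]
    have hdt : (a0:ℝ) ≤ dig t 0 := by
      have : a0 ≤ dig t 0 := by
        show a0 ≤ ⌊t⁻¹⌋₊
        apply Nat.le_floor
        rw [le_inv_comm₀ (by positivity) ht'.1, ← one_div]
        exact ht.2.le
      exact_mod_cast this
    have hgz := (dig_props hzi hzm).1
    have hmono : Q (pre (dig z) (m + 1)) ≤ Q (pre (dig z) ns) := by
      have h5 := Q_take_mono (pre_good hgz ns) (show m + 1 ≤ ns by omega)
      rwa [take_pre _ (by omega), take_pre _ le_rfl] at h5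
    have hmono' : (Q (pre (dig z) (m + 1)) : ℝ) ≤ Q (pre (dig z) ns) := by exact_mod_cast hmono
    rw [hpre, Q_append] at hmono'
    push_cast at hmono'
    have : (a0:ℝ) * Q u + Q' u ≤ dig t 0 * Q u + Q' u := by
      nlinarith
    linarith

end Pool.Agent.N456.CN
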