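import Pool.Agent.N456.CN.Stage

/-!
For every basic sequence there is a number which is normal with respect to the continued fraction expansion
and not distribution normal.
-/

set_option autoImplicit false

open Filter Set MeasureTheory
open scoped Topology ENNReal NNReal

namespace Pool.Agent.N456.CN

open Pool.Agent.W811.Stu Pool.Agent.W174.Stu Pool.Agent.R357.CF

/-- products of a basic sequence -/
def PQ (b : ℕ → ℕ) (n : ℕ) : ℕ := ∏ i ∈ Finset.range n, b i

lemma PQ_dvd (b : ℕ → ℕ) {m n : ℕ} (h : m ≤ n) : PQ b m ∣ PQ b n :=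
  Finset.prod_dvd_prod_of_subset _ _ _ (Finset.range_mono h)

lemma PQ_pos {b : ℕ → ℕ} (hb : ∀ n, 2 ≤ b n) (n : ℕ) : 0 < PQ b n :=
  Finset.prod_pos fun i _ => by have := hb i; omega

lemma PQ_ge {b : ℕ → ℕ} (hb : ∀ n, 2 ≤ b n) (n : ℕ) : n ≤ PQ b n := by
  induction n with
  | zero => omega
  | succ n ih =>
    have h1 : PQ b (n + 1) = PQ b n * b n := Finset.prod_range_succ _ _
    have h2 := hb n
    have h3 := PQ_pos hb n
    rw [h1]
    nlinarith

lemma fract_far {y : ℝ} {k : ℤ} (h : |y - k| ≤ 1 / 8) : Int.fract y ∉ Ico (1/4 : ℝ) (3/4) := by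
  rintro ⟨h1, h2⟩
  have h3 := Int.floor_add_fract y
  rw [abs_le] at h
  have h4 : ((⌊y⌋ - k : ℤ) : ℝ) < 0 := by push_cast; linarith
  have h5 : (-1 : ℝ) < ((⌊y⌋ - k : ℤ) : ℝ) := by push_cast; linarith
  have h4' : ⌊y⌋ - k < 0 := by exact_mod_cast h4
  have h5' : -1 < ⌊y⌋ - k := by exact_mod_cast h5
  omega

lemma step {b : ℕ → ℕ} (hb : ∀ n, 2 ≤ b n) (B : Finset (List ℕ)) (hB : ∀ c ∈ B, c ≠ [] ∧ Good c)
    {ε : ℝ} (hε : 0 < ε) :
    ∃ n1 : ℕ, ∀ w0 : List ℕ, Good w0 → ∀ M : ℕ, ∃ w' : List ℕ, Good w' ∧ w0 <+: w' ∧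
      w0.length + M ≤ w'.length ∧
      (∀ c ∈ B, ∀ n ≤ w'.length - w0.length,
        |(oc c ((w'.drop w0.length).take n) : ℝ) - n * mu c| ≤ ε * n + n1 + 7 * c.length) ∧
      ∃ N, M ≤ N ∧ 1 ≤ N ∧ ∀ t ∈ Ioo (0:ℝ) 1, ∀ n, N ≤ n → n ≤ 3 * N →
        Int.fract ((PQ b n : ℝ) * phi w' t) ∉ Ico (1/4 : ℝ) (3/4) := by
  obtain ⟨n1, hn1⟩ := stage B hB hε
  refine ⟨n1 + 1, ?_⟩
  intro w0 hw0 M
  obtain ⟨q0, hq0⟩ := hn1 w0 hw0 M
  set N := q0 + M + 1 with hN
  obtain ⟨v, hv, hdvd, hMv, herr⟩ := hq0 (PQ b N) (le_trans (by omega) (PQ_ge hb N))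
  set W := w0 ++ v with hW
  have hWg : Good W := hw0.append hv
  set H : ℕ := 8 * PQ b (3 * N) with hH
  have hHpos : 1 ≤ H := by have := PQ_pos hb (3 * N); omega
  refine ⟨W ++ [H], hWg.append (good_single hHpos), ?_, ?_, ?_, N, by omega, by omega, ?_⟩
  · rw [hW, List.append_assoc]; exact List.prefix_append _ _
  · rw [hW]; simp; omega
  · intro c hc n hn
    have e1 : (W ++ [H]).drop w0.length = v ++ [H] := by
      rw [hW, List.append_assoc, List.drop_append, List.drop_length]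
      simp
    rw [e1]
    have hn' : n ≤ v.length + 1 := by
      rw [hW] at hn; simp at hn; omega
    have hcl : (0:ℝ) ≤ c.length := by positivity
    rcases Nat.lt_or_ge v.length n with h | h
    · have : n = v.length + 1 := by omega
      subst this
      have e2 : (v ++ [H]).take (v.length + 1) = v ++ [H] := List.take_of_length_le (by simp)
      rw [e2]
      have h1 := herr c hc v.length le_rfl
      rw [List.take_length] at h1
      have h2 := oc_app_le c v [H]
      have h3 := oc_app_ge c v [H]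
      have h4 : oc c [H] ≤ 1 := (oc_le _ _).trans (by simp)
      have h2' : (oc c (v ++ [H]) : ℝ) ≤ oc c v + 1 + c.length := by
        have : oc c (v ++ [H]) ≤ oc c v + 1 + c.length := by omega
        exact_mod_cast this
      have h3' : (oc c v : ℝ) ≤ oc c (v ++ [H]) := by
        have : oc c v ≤ oc c (v ++ [H]) := by omega
        exact_mod_cast this
      have h5 := mu_nonneg c
      have h6 := mu_le_one c
      rw [abs_le] at h1 ⊢
      push_cast
      constructor <;> nlinarith [h1.1, h1.2]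
    · rw [List.take_append_of_le_length h]
      refine (herr c hc n h).trans ?_
      push_cast
      linarith
  · intro t ht n hn1 hn2
    have hs : phi (W ++ [H]) t = phi W (1 / (H + t)) := by rw [phi_append]; rfl
    have hH' : (1:ℝ) ≤ H := by exact_mod_cast hHpos
    have hs0 : 0 ≤ 1 / ((H:ℝ) + t) := by have := ht.1; positivity
    have hs1 : 1 / ((H:ℝ) + t) ≤ 1 / H := one_div_le_one_div_of_le (by positivity) (by linarith [ht.1])
    have hs2 : 1 / (H:ℝ) ≤ 1 := by rw [div_le_one (by positivity)]; exact hH'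
    have h1 := (phi_abs hWg (z := 1 / ((H:ℝ) + t)) (z' := 0) ⟨hs0, hs1.trans hs2⟩ ⟨le_rfl, zero_le_one⟩).2
    have hQW : (1:ℝ) ≤ Q W := by exact_mod_cast Q_pos hWg
    have h2 : |phi W (1 / ((H:ℝ) + t)) - phi W 0| ≤ 1 / H := by
      refine h1.trans ?_
      rw [sub_zero, abs_of_nonneg hs0]
      refine (div_le_self hs0 ?_).trans hs1
      nlinarith
    obtain ⟨e, he⟩ := hdvd.trans (PQ_dvd b hn1)
    have h3 : (PQ b n : ℝ) * phi W 0 = ((e * Pn W : ℕ) : ℤ) := by
      rw [phi_zero W hWg, he]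
      push_cast
      field_simp
    rw [hs]
    apply fract_far (k := ((e * Pn W : ℕ) : ℤ))
    rw [← h3, ← mul_sub, abs_mul, abs_of_nonneg (by positivity)]
    have h4 : (PQ b n : ℝ) ≤ PQ b (3 * N) := by
      exact_mod_cast Nat.le_of_dvd (PQ_pos hb _) (PQ_dvd b hn2)
    have h5 : (0:ℝ) < PQ b (3 * N) := by exact_mod_cast PQ_pos hb _
    calc (PQ b n : ℝ) * |phi W (1 / ((H:ℝ) + t)) - phi W 0| ≤ PQ b (3 * N) * (1 / H) := by gcongr
      _ = 1 / 8 := by rw [hH]; push_cast; field_simp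

/-- the first blocks -/
noncomputable def BB (j : ℕ) : Finset (List ℕ) :=
  @Finset.filter _ (fun c => c ≠ [] ∧ Good c) (Classical.decPred _)
    ((Finset.range j).image (Denumerable.ofNat (List ℕ)))

lemma BB_prop (j : ℕ) : ∀ c ∈ BB j, c ≠ [] ∧ Good c := by
  intro c hc
  unfold BB at hc
  rw [@Finset.mem_filter _ _ (Classical.decPred _)] at hc
  exact hc.2

lemma mem_BB {c : List ℕ} (h : c ≠ []) (hc : Good c) {j : ℕ} (hj : Encodable.encode c < j) : c ∈ BB j := by
  unfold BB
  rw [@Finset.mem_filter _ _ (Classical.decPred _)]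
  refine ⟨?_, h, hc⟩
  rw [Finset.mem_image]
  exact ⟨Encodable.encode c, Finset.mem_range.2 hj, Denumerable.ofNat_encode c⟩

lemma exseq {R : ℕ → List ℕ → List ℕ → Prop} (h : ∀ j w, Good w → ∃ w', Good w' ∧ R j w w') :
    ∃ w : ℕ → List ℕ, (∀ j, Good (w j)) ∧ ∀ j, R j (w j) (w (j + 1)) := by
  choose! f hf1 hf2 using h
  let w : ℕ → List ℕ := fun j => Nat.rec [] (fun j w => f j w) j
  have hw : ∀ j, Good (w j) := by
    intro j
    induction j with
    | zero => exact good_nil
    | succ j ih => exact hf1 j _ ih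
  exact ⟨w, hw, fun j => hf2 j _ (hw j)⟩

lemma dig_X {s : ℕ → ℕ} (hs : ∀ n, 1 ≤ s n) (n : ℕ) : dig (X s) n = s n := by
  unfold dig
  rw [gauss_iter_X hs, X_eq (sh_good hs n), one_div, inv_inv]
  have hm := X_mem (sh_good (sh_good hs n) 1)
  have e : sh s n 0 = s n := by simp [sh]
  rw [e, Nat.floor_eq_iff (by have := hm.1; positivity)]
  exact ⟨by linarith [hm.1], by linarith [hm.2]⟩

/-- main construction -/
theorem construct {b : ℕ → ℕ} (hb : ∀ n, 2 ≤ b n) : ∃ s : ℕ → ℕ, (∀ n, 1 ≤ s n) ∧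
    (∀ c : List ℕ, c ≠ [] → Good c → Tendsto (fun N : ℕ => (cs s c N : ℝ) / N) atTop (𝓝 (mu c))) ∧
    ∀ M : ℕ, ∃ N, M ≤ N ∧ 1 ≤ N ∧ ∀ n, N ≤ n → n ≤ 3 * N →
      Int.fract ((PQ b n : ℝ) * X s) ∉ Ico (1/4 : ℝ) (3/4) := by
  classical
  have hst : ∀ j : ℕ, ∃ n1 : ℕ, ∀ w0 : List ℕ, Good w0 → ∀ M : ℕ, ∃ w' : List ℕ, Good w' ∧ w0 <+: w' ∧
      w0.length + M ≤ w'.length ∧
      (∀ c ∈ BB j, ∀ n ≤ w'.length - w0.length,
        |(oc c ((w'.drop w0.length).take n) : ℝ) - n * mu c| ≤ 1 / ((j:ℝ) + 1) * n + n1 + 7 * c.length) ∧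
      ∃ N, M ≤ N ∧ 1 ≤ N ∧ ∀ t ∈ Ioo (0:ℝ) 1, ∀ n, N ≤ n → n ≤ 3 * N →
        Int.fract ((PQ b n : ℝ) * phi w' t) ∉ Ico (1/4 : ℝ) (3/4) := fun j =>
    step hb (BB j) (BB_prop j) (by positivity)
  choose n1 hn1 using hst
  obtain ⟨w, hw, hR⟩ := exseq (R := fun j w0 w' => w0 <+: w' ∧
      w0.length + (j + 2) * (w0.length + n1 j + n1 (j + 1) + j + 1) ≤ w'.length ∧
      (∀ c ∈ BB j, ∀ n ≤ w'.length - w0.length,
        |(oc c ((w'.drop w0.length).take n) : ℝ) - n * mu c| ≤ 1 / ((j:ℝ) + 1) * n + n1 j + 7 * c.length) ∧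
      ∃ N, (j + 2) * (w0.length + n1 j + n1 (j + 1) + j + 1) ≤ N ∧ 1 ≤ N ∧
        ∀ t ∈ Ioo (0:ℝ) 1, ∀ n, N ≤ n → n ≤ 3 * N →
        Int.fract ((PQ b n : ℝ) * phi w' t) ∉ Ico (1/4 : ℝ) (3/4))
    (fun j w0 hw0 => hn1 j w0 hw0 _)
  -- lengths
  have hL1 : ∀ j, (w j).length + (j + 2) * ((w j).length + n1 j + n1 (j + 1) + j + 1) ≤ (w (j + 1)).length :=
    fun j => (hR j).2.1
  have hLj : ∀ j, j ≤ (w j).length := by
    intro j
    induction j with
    | zero => omega
    | succ j ih =>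
      have := hL1 j
      nlinarith
  have hmono : ∀ i k, w i <+: w (i + k) := by
    intro i k
    induction k with
    | zero => exact List.prefix_rfl
    | succ k ih => exact ih.trans (hR (i + k)).1
  have hmono' : ∀ i k, i ≤ k → w i <+: w k := by
    intro i k h
    obtain ⟨d, rfl⟩ := Nat.exists_eq_add_of_le h
    exact hmono i d
  set s : ℕ → ℕ := fun n => (w (n + 1)).getD n 1 with hs_def
  have hget : ∀ j n (h : n < (w j).length), s n = (w j)[n] := by
    intro j n h
    have hn : n < (w (n + 1)).length := by have := hLj (n + 1); omega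
    have e1 : s n = (w (n + 1))[n] := by
      rw [hs_def]
      simp only
      rw [List.getD_eq_getElem _ _ hn]
    rw [e1]
    rcases le_total (n + 1) j with h1 | h1
    · obtain ⟨r, hr⟩ := hmono' _ _ h1
      simp only [← hr]
      rw [List.getElem_append_left hn]
    · obtain ⟨r, hr⟩ := hmono' _ _ h1
      simp only [← hr]
      rw [List.getElem_append_left h]
  have hs : ∀ n, 1 ≤ s n := by
    intro n
    have hn : n < (w (n + 1)).length := by have := hLj (n + 1); omega
    rw [hget (n + 1) n hn]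
    exact hw (n + 1) _ (List.getElem_mem _)
  have hpre : ∀ j, pre s (w j).length = w j := by
    intro j
    apply List.ext_getElem
    · simp [pre]
    · intro i h1 h2
      simp only [pre, List.getElem_map, List.getElem_range]
      exact hget j i h2
  refine ⟨s, hs, ?_, ?_⟩
  · intro c hc hcg
    set K : ℝ := (c.length : ℝ) with hK
    have hK0 : 0 ≤ K := by positivity
    have hmu0 := mu_nonneg c
    have hmu1 := mu_le_one c
    set L : ℕ → ℕ := fun j => (w j).length with hL
    set e : ℕ → ℝ := fun N => |(oc c (pre s N) : ℝ) - N * mu c| with he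
    -- trivial bound
    have htriv : ∀ N : ℕ, e N ≤ N := by
      intro N
      have h1 : (oc c (pre s N) : ℝ) ≤ N := by
        have := oc_le c (pre s N)
        rw [pre_length] at this
        exact_mod_cast this
      have h2 : (0:ℝ) ≤ oc c (pre s N) := by positivity
      have h3 : (0:ℝ) ≤ N := by positivity
      simp only [he]
      rw [abs_le]
      constructor <;> nlinarith
    -- step bound
    have hstep : ∀ j, Encodable.encode c < j → ∀ N, L j ≤ N → N ≤ L (j + 1) →
        e N ≤ e (L j) + 1 / ((j:ℝ) + 1) * ((N:ℝ) - L j) + n1 j + 8 * K := by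
      intro j hj N h1 h2
      have h3 := (hR j).2.2.1 c (mem_BB hc hcg hj) (N - L j) (by simp only [hL] at *; omega)
      have h4 : pre s N = w j ++ ((w (j + 1)).drop (w j).length).take (N - L j) := by
        have h5 : pre s N = (w (j + 1)).take N := by
          rw [← hpre (j + 1)]
          exact (take_pre s h2).symm
        rw [h5]
        obtain ⟨r, hr⟩ := (hR j).1
        rw [← hr, List.take_append, List.take_of_length_le h1, List.drop_append, List.drop_length]
        simp [hL]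
      set z := ((w (j + 1)).drop (w j).length).take (N - L j) with hz
      have h6 := oc_app_le c (w j) z
      have h7 := oc_app_ge c (w j) z
      rw [← h4] at h6 h7
      have h6' : (oc c (pre s N) : ℝ) ≤ oc c (w j) + oc c z + K := by rw [hK]; exact_mod_cast h6
      have h7' : (oc c (w j) : ℝ) + oc c z ≤ oc c (pre s N) := by exact_mod_cast h7
      rw [Nat.cast_sub h1] at h3
      have h8 : e (L j) = |(oc c (w j) : ℝ) - L j * mu c| := by simp only [he, hL, hpre]
      rw [h8]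
      simp only [he]
      have h9 : (oc c (pre s N) : ℝ) - N * mu c = ((oc c (w j) : ℝ) - L j * mu c) +
          (((oc c z : ℝ) - ((N:ℝ) - L j) * mu c) + ((oc c (pre s N) : ℝ) - oc c (w j) - oc c z)) := by ring
      rw [h9]
      refine (abs_add_le _ _).trans ?_
      have h10 : |((oc c z : ℝ) - ((N:ℝ) - L j) * mu c) + ((oc c (pre s N) : ℝ) - oc c (w j) - oc c z)| ≤
          |(oc c z : ℝ) - ((N:ℝ) - L j) * mu c| + K := by
        refine (abs_add_le _ _).trans ?_
        have : |(oc c (pre s N) : ℝ) - oc c (w j) - oc c z| ≤ K := by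
          rw [abs_le]; constructor <;> linarith
        linarith
      linarith
    have hmain : ∀ j, Encodable.encode c < j → ∀ N, L (j + 1) ≤ N → N ≤ L (j + 2) →
        e N ≤ 2 / ((j:ℝ) + 1) * N + 16 * K := by
      intro j hj N h1 h2
      have a1 := hstep (j + 1) (by omega) N h1 h2
      have a2 := hstep j hj (L (j + 1)) (by have := hL1 j; simp only [hL]; omega) le_rfl
      have a3 := htriv (L j)
      have a4 : ((L j : ℝ) + n1 j + n1 (j + 1)) * ((j:ℝ) + 1) ≤ L (j + 1) := by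
        have := hL1 j
        have h3 : (L j + n1 j + n1 (j + 1)) * (j + 1) ≤ L (j + 1) := by
          simp only [hL]
          nlinarith
        exact_mod_cast h3
      have a5 : (L j : ℝ) + n1 j + n1 (j + 1) ≤ L (j + 1) / ((j:ℝ) + 1) := by
        rw [le_div_iff₀ (by positivity)]; exact a4
      have hLN : (L (j + 1) : ℝ) ≤ N := by exact_mod_cast h1
      have hLL : (L j : ℝ) ≤ L (j + 1) := by
        have : L j ≤ L (j + 1) := by have := hL1 j; simp only [hL]; omega
        exact_mod_cast this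
      have hj1 : 1 / (((j + 1 : ℕ) : ℝ) + 1) ≤ 1 / ((j:ℝ) + 1) := by
        apply one_div_le_one_div_of_le (by positivity)
        push_cast; linarith
      have a6 : 1 / (((j + 1 : ℕ) : ℝ) + 1) * ((N:ℝ) - L (j + 1)) ≤ 1 / ((j:ℝ) + 1) * ((N:ℝ) - L (j + 1)) :=
        mul_le_mul_of_nonneg_right hj1 (by linarith)
      have hd : (0:ℝ) < 1 / ((j:ℝ) + 1) := by positivity
      have a7 : L (j + 1) / ((j:ℝ) + 1) = 1 / ((j:ℝ) + 1) * L (j + 1) := by ring
      have a8 : 2 / ((j:ℝ) + 1) * N = 1 / ((j:ℝ) + 1) * N + 1 / ((j:ℝ) + 1) * N := by ring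
      have a9 : 1 / ((j:ℝ) + 1) * L (j + 1) ≤ 1 / ((j:ℝ) + 1) * N := mul_le_mul_of_nonneg_left hLN hd.le
      have a10 : 0 ≤ 1 / ((j:ℝ) + 1) * L j := by positivity
      rw [a7] at a5
      rw [a8]
      nlinarith
    -- conclusion
    rw [Metric.tendsto_atTop]
    intro δ hδ
    obtain ⟨j1, hj1⟩ := exists_nat_gt (4 / δ)
    set J := max (j1) (Encodable.encode c + 1) with hJ
    obtain ⟨N1, hN1⟩ := exists_nat_gt (34 * K / δ)
    refine ⟨max (L (J + 1)) (N1 + 1), ?_⟩
    intro N hN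
    have hN2 : L (J + 1) ≤ N := (le_max_left _ _).trans hN
    have hN3 : N1 + 1 ≤ N := (le_max_right _ _).trans hN
    have hex : ∃ k, N < L k := ⟨N + 1, by have := hLj (N + 1); simp only [hL]; omega⟩
    obtain ⟨j, hj, hj2, hj3⟩ : ∃ j, J ≤ j ∧ L (j + 1) ≤ N ∧ N ≤ L (j + 2) := by
      set k := Nat.find hex with hk
      have h1 := Nat.find_spec hex
      have hLmono : ∀ a b, a ≤ b → L a ≤ L b := fun a b hab => (hmono' a b hab).length_le
      have h2 : J + 1 < k := by
        by_contra hc'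
        rw [not_lt] at hc'
        have := hLmono _ _ hc'
        rw [← hk] at h1
        omega
      have h3 := Nat.find_min hex (m := k - 1) (by omega)
      refine ⟨k - 2, by omega, ?_, ?_⟩
      · rw [show k - 2 + 1 = k - 1 by omega]; omega
      · rw [show k - 2 + 2 = k by omega]; exact h1.le
    have h4 := hmain j (by omega) N hj2 hj3
    have h5 := cs_oc s c N
    have hNpos : (0:ℝ) < N := by exact_mod_cast (show 0 < N by omega)
    rw [Real.dist_eq]
    have e1 : (cs s c N : ℝ) / N - mu c = ((cs s c N : ℝ) - N * mu c) / N := by field_simp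
    rw [e1, abs_div, abs_of_pos hNpos, div_lt_iff₀ hNpos]
    have h6 : |(cs s c N : ℝ) - N * mu c| ≤ 2 / ((j:ℝ) + 1) * N + 17 * K := by
      have e2 : (cs s c N : ℝ) - N * mu c = ((cs s c N : ℝ) - oc c (pre s N)) +
        ((oc c (pre s N) : ℝ) - N * mu c) := by ring
      rw [e2]
      refine (abs_add_le _ _).trans ?_
      simp only [he] at h4
      linarith
    have h7 : 2 / ((j:ℝ) + 1) ≤ δ / 2 := by
      have : (4 / δ : ℝ) < (j:ℝ) + 1 := by
        have : (j1:ℝ) ≤ j := by exact_mod_cast (show j1 ≤ j by omega)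
        linarith
      rw [div_lt_iff₀ hδ] at this
      rw [div_le_div_iff₀ (by positivity) (by norm_num)]
      linarith
    have h8 : 17 * K < δ / 2 * N := by
      have : (N1:ℝ) + 1 ≤ N := by exact_mod_cast hN3
      rw [div_lt_iff₀ hδ] at hN1
      nlinarith
    have h9 : 2 / ((j:ℝ) + 1) * N ≤ δ / 2 * N := mul_le_mul_of_nonneg_right h7 hNpos.le
    linarith
  · intro M
    obtain ⟨N, h1, h2, h3⟩ := (hR M).2.2.2
    refine ⟨N, by nlinarith, h2, ?_⟩
    intro n hn1 hn2
    have h4 := h3 (X (sh s (w (M + 1)).length)) (X_mem (sh_good hs _)) n hn1 hn2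
    have h5 := X_pre hs (w (M + 1)).length
    rw [hpre] at h5
    rw [← h5] at h4
    exact h4

end Pool.Agent.N456.CN
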