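import Pool.Agent.N456.CN.Grow

/-!
Counting rationals with denominator `q` in a small set; images of inverse branches.
-/

set_option autoImplicit false

open Filter Set MeasureTheory
open scoped Topology ENNReal NNReal

namespace Pool.Agent.N456.CN

open Pool.Agent.W811.Stu Pool.Agent.W174.Stu Pool.Agent.R357.CF

lemma grid_aux {E : Set ℝ} {q : ℕ} (hq : 0 < q) (T : Finset ℕ) {η : ℝ} (hη : 0 ≤ η)
    (hE : volume E ≤ ENNReal.ofReal η)
    (hT : ∀ P ∈ T, ∀ z ∈ Ioo ((P:ℝ) / q) (((P:ℝ) + 1) / q), Irrational z → z ∈ E) :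
    (T.card : ℝ) ≤ q * η := by
  have hq' : (0:ℝ) < q := by exact_mod_cast hq
  have hsub : (⋃ P ∈ T, Ioo ((P:ℝ) / q) (((P:ℝ) + 1) / q)) ⊆ E ∪ range ((↑) : ℚ → ℝ) := by
    intro z hz
    simp only [mem_iUnion] at hz
    obtain ⟨P, hP, hz⟩ := hz
    by_cases h : Irrational z
    · exact Or.inl (hT P hP z hz h)
    · exact Or.inr (by simpa [Irrational] using h)
  have h1 : volume (⋃ P ∈ T, Ioo ((P:ℝ) / q) (((P:ℝ) + 1) / q)) = T.card * ENNReal.ofReal (1 / q) := by
    rw [measure_biUnion_finset]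
    · have : ∀ P ∈ T, volume (Ioo ((P:ℝ) / q) (((P:ℝ) + 1) / q)) = ENNReal.ofReal (1 / q) := by
        intro P _
        rw [Real.volume_Ioo]
        congr 1
        rw [← sub_div]; congr 1; ring
      rw [Finset.sum_congr rfl this, Finset.sum_const, nsmul_eq_mul]
    · intro a _ b _ hab
      rw [Function.onFun, Set.disjoint_left]
      rintro z ⟨h1, h2⟩ ⟨h3, h4⟩
      rw [div_lt_iff₀ hq'] at h1 h3
      rw [lt_div_iff₀ hq'] at h2 h4
      have k1 : (a:ℝ) < b + 1 := by linarith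
      have k2 : (b:ℝ) < a + 1 := by linarith
      have k1' : a < b + 1 := by exact_mod_cast k1
      have k2' : b < a + 1 := by exact_mod_cast k2
      exact hab (by omega)
    · intro _ _; exact measurableSet_Ioo
  have h2 : (T.card : ℝ≥0∞) * ENNReal.ofReal (1 / q) ≤ ENNReal.ofReal η := by
    rw [← h1]
    refine (measure_mono hsub).trans ((measure_union_le _ _).trans ?_)
    rw [(countable_range ((↑) : ℚ → ℝ)).measure_zero, add_zero]
    exact hE
  have h3 : (T.card : ℝ) * (1 / q) ≤ η := by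
    rw [← ENNReal.ofReal_natCast, ← ENNReal.ofReal_mul (by positivity)] at h2
    exact (ENNReal.ofReal_le_ofReal_iff hη).1 h2
  rw [mul_one_div, div_le_iff₀ hq'] at h3
  linarith

/-- the grid lemma -/
lemma grid {E : Set ℝ} {q : ℕ} (hq : 0 < q) (S : Finset ℕ) {η : ℝ} (hη : 0 ≤ η)
    (hE : volume E ≤ ENNReal.ofReal η)
    (hS : ∀ P ∈ S, ∃ α β : ℝ, 0 ≤ α ∧ α ≤ (P:ℝ) / q ∧ (P:ℝ) / q ≤ β ∧ 2 / (q:ℝ) ≤ β - α ∧
      ∀ z ∈ Ioo α β, Irrational z → z ∈ E) :
    (S.card : ℝ) ≤ 2 * (q * η) := by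
  classical
  have hq' : (0:ℝ) < q := by exact_mod_cast hq
  set R : ℕ → Prop := fun P => ∀ z ∈ Ioo ((P:ℝ) / q) (((P:ℝ) + 1) / q), Irrational z → z ∈ E with hR
  have h1 := grid_aux hq (S.filter R) hη hE (fun P hP => (Finset.mem_filter.1 hP).2)
  have h2 := grid_aux hq ((S.filter (fun P => ¬ R P)).image (fun P => P - 1)) hη hE (by
    intro P hP
    simp only [Finset.mem_image, Finset.mem_filter] at hP
    obtain ⟨P', ⟨hP1, hP2⟩, rfl⟩ := hP
    obtain ⟨α, β, a1, a2, a3, a4, a5⟩ := hS P' hP1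
    have hβ : β < ((P':ℝ) + 1) / q := by
      by_contra hc
      apply hP2
      intro z hz hi
      exact a5 z ⟨lt_of_le_of_lt a2 hz.1, lt_of_lt_of_le hz.2 (not_lt.1 hc)⟩ hi
    have hα : α ≤ ((P':ℝ) - 1) / q := by
      have e1 : ((P':ℝ) + 1) / q - 2 / q = ((P':ℝ) - 1) / q := by rw [← sub_div]; congr 1; ring
      linarith
    have hP0 : 1 ≤ P' := by
      by_contra hc
      have : P' = 0 := by omega
      subst this
      have : ((0:ℕ):ℝ) - 1 < 0 := by norm_num
      have := div_neg_of_neg_of_pos this hq'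
      linarith
    intro z hz hi
    rw [Nat.cast_sub hP0] at hz
    push_cast at hz
    rw [sub_add_cancel] at hz
    exact a5 z ⟨lt_of_le_of_lt hα hz.1, lt_of_lt_of_le hz.2 a3⟩ hi)
  have h3 : ((S.filter (fun P => ¬ R P)).image (fun P => P - 1)).card = (S.filter (fun P => ¬ R P)).card := by
    apply Finset.card_image_of_injOn
    intro a ha b hb hab
    have hpos : ∀ P ∈ S.filter (fun P => ¬ R P), 1 ≤ P := by
      intro P' hP
      obtain ⟨hP1, hP2⟩ := Finset.mem_filter.1 hP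
      obtain ⟨α, β, a1, a2, a3, a4, a5⟩ := hS P' hP1
      have hβ : β < ((P':ℝ) + 1) / q := by
        by_contra hc
        apply hP2
        intro z hz hi
        exact a5 z ⟨lt_of_le_of_lt a2 hz.1, lt_of_lt_of_le hz.2 (not_lt.1 hc)⟩ hi
      have hα : α ≤ ((P':ℝ) - 1) / q := by
        have e1 : ((P':ℝ) + 1) / q - 2 / q = ((P':ℝ) - 1) / q := by rw [← sub_div]; congr 1; ring
        linarith
      by_contra hc
      have : P' = 0 := by omega
      subst this
      have : ((0:ℕ):ℝ) - 1 < 0 := by norm_num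
      have := div_neg_of_neg_of_pos this hq'
      linarith
    have ha' := hpos a ha
    have hb' := hpos b hb
    simp only at hab
    omega
  rw [h3] at h2
  have h4 : (S.filter R).card + (S.filter (fun P => ¬ R P)).card = S.card :=
    Finset.card_filter_add_card_filter_not _
  have h5 : (S.card : ℝ) = (S.filter R).card + (S.filter (fun P => ¬ R P)).card := by
    exact_mod_cast h4.symm
  rw [h5]
  linarith

/-- number of fractions in an interval -/
lemma many {q : ℕ} (hq : 0 < q) {α β : ℝ} (hα : 0 ≤ α) (hβ : β ≤ 1) :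
    q * (β - α) - 1 ≤ (((Finset.range q).filter (fun P : ℕ => α < (P:ℝ) / q ∧ (P:ℝ) / q < β)).card : ℝ) := by
  classical
  have hq' : (0:ℝ) < q := by exact_mod_cast hq
  set a := ⌊(q:ℝ) * α⌋₊ with ha
  set b := ⌈(q:ℝ) * β⌉₊ with hb
  have hsub : (Finset.Ioo a b) ⊆ (Finset.range q).filter (fun P => α < (P:ℝ) / q ∧ (P:ℝ) / q < β) := by
    intro P hP
    rw [Finset.mem_Ioo] at hP
    rw [Finset.mem_filter, Finset.mem_range]
    have h1 : (q:ℝ) * α < P := Nat.lt_of_floor_lt hP.1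
    have h2 : (P:ℝ) < q * β := Nat.lt_ceil.1 hP.2
    refine ⟨?_, ?_, ?_⟩
    · have : (P:ℝ) < q := by nlinarith
      exact_mod_cast this
    · rw [lt_div_iff₀ hq']; linarith
    · rw [div_lt_iff₀ hq']; linarith
  have h1 : ((Finset.Ioo a b).card : ℝ) ≤
      (((Finset.range q).filter (fun P : ℕ => α < (P:ℝ) / q ∧ (P:ℝ) / q < β)).card : ℝ) := by
    exact_mod_cast Finset.card_le_card hsub
  refine le_trans ?_ h1
  rw [Nat.card_Ioo]
  have h2 : (a:ℝ) ≤ q * α := Nat.floor_le (by positivity)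
  have h3 : (q:ℝ) * β ≤ b := Nat.le_ceil _
  have h4 : (b:ℝ) - a - 1 ≤ ((b - a - 1 : ℕ) : ℝ) := by
    have : b ≤ (b - a - 1) + a + 1 := by omega
    have : (b:ℝ) ≤ ((b - a - 1 : ℕ) : ℝ) + a + 1 := by exact_mod_cast this
    linarith
  nlinarith

/-- values of an inverse branch between two given values -/
lemma between {u : List ℕ} (hu : Good u) {t1 t2 : ℝ} (h1 : 0 ≤ t1) (h12 : t1 < t2) (h2 : t2 ≤ 1) {z : ℝ}
    (hz : z ∈ Ioo (min (phi u t1) (phi u t2)) (max (phi u t1) (phi u t2))) :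
    ∃ t ∈ Ioo t1 t2, phi u t = z := by
  have hc : ContinuousOn (phi u) (uIcc t1 t2) := (phi_contOn hu).mono (by
    rw [uIcc_of_le h12.le]; exact Icc_subset_Icc h1 h2)
  have hz' : z ∈ uIcc (phi u t1) (phi u t2) := ⟨hz.1.le, hz.2.le⟩
  obtain ⟨t, ht, he⟩ := intermediate_value_uIcc hc hz'
  rw [uIcc_of_le h12.le] at ht
  refine ⟨t, ⟨lt_of_le_of_ne ht.1 ?_, lt_of_le_of_ne ht.2 ?_⟩, he⟩
  · rintro rfl
    rw [← he] at hz
    rcases le_total (phi u t1) (phi u t2) with h | h
    · rw [min_eq_left h] at hz; exact lt_irrefl _ hz.1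
    · rw [max_eq_left h] at hz; exact lt_irrefl _ hz.2
  · rintro rfl
    rw [← he] at hz
    rcases le_total (phi u t1) (phi u t) with h | h
    · rw [max_eq_right h] at hz; exact lt_irrefl _ hz.2
    · rw [min_eq_right h] at hz; exact lt_irrefl _ hz.1

lemma phi_uIcc {u : List ℕ} (hu : Good u) {t1 t t2 : ℝ} (h1 : 0 ≤ t1) (h1t : t1 ≤ t) (ht2 : t ≤ t2) :
    phi u t ∈ uIcc (phi u t1) (phi u t2) := by
  rcases h1t.eq_or_lt with rfl | h1t
  · exact left_mem_uIcc
  rcases ht2.eq_or_lt with rfl | ht2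
  · exact right_mem_uIcc
  have a := phi_sign hu (h1.trans h1t.le) h1 h1t
  have b := phi_sign hu ((h1.trans h1t.le).trans ht2.le) (h1.trans h1t.le) ht2
  rcases neg_one_pow_eq_or ℝ u.length with e | e
  · rw [e, one_mul] at a b
    exact mem_uIcc.2 (Or.inl ⟨by linarith, by linarith⟩)
  · rw [e] at a b
    exact mem_uIcc.2 (Or.inr ⟨by linarith, by linarith⟩)

/-- length of an interval of an inverse branch starting at `0` -/
lemma phi_len {u : List ℕ} (hu : Good u) {t : ℝ} (ht : 0 ≤ t) :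
    |phi u t - phi u 0| = t / (((Q u : ℝ) + Q' u * t) * Q u) := by
  rw [phi_sub hu ht le_rfl, abs_div, abs_mul, abs_pow, abs_neg, abs_one, one_pow, one_mul, sub_zero,
    mul_zero, add_zero, abs_of_nonneg ht, abs_of_pos]
  have : (1:ℝ) ≤ Q u := by exact_mod_cast Q_pos hu
  have : (0:ℝ) ≤ Q' u := by positivity
  positivity

lemma irr_of_phi {u : List ℕ} (hu : Good u) {t : ℝ} (ht : 0 ≤ t) (h : Irrational (phi u t)) :
    Irrational t := by
  rintro ⟨r, rfl⟩
  apply h
  refine ⟨((Pn u : ℚ) + Pn' u * r) / (Q u + Q' u * r), ?_⟩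
  rw [(phi_formula hu ht).2]
  push_cast
  rfl

/-- digits of a value of an inverse branch -/
lemma dig_phi {u : List ℕ} (hu : Good u) {t : ℝ} (ht : t ∈ Ioo (0:ℝ) 1) :
    pre (dig (phi u t)) u.length = u ∧ ∀ i, dig (phi u t) (u.length + i) = dig t i := by
  constructor
  · induction u with
    | nil => simp [pre]
    | cons d u ih =>
      obtain ⟨h1, h2⟩ := Good.cons hu
      have hm := phi_mem h2 ht
      rw [List.length_cons, pre_succ']
      have hg : gauss (phi (d :: u) t) = phi u t := gauss_one_div hm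
      have e1 : sh (dig (phi (d :: u) t)) 1 = dig (phi u t) := by
        funext i
        show dig (phi (d :: u) t) (1 + i) = _
        rw [← dig_iter]
        simp only [Function.iterate_one]
        rw [hg]
      rw [e1, ih h2]
      congr 1
      show ⌊(phi (d :: u) t)⁻¹⌋₊ = d
      simp only [phi, one_div, inv_inv]
      rw [Nat.floor_eq_iff (by have := hm.1; positivity)]
      exact ⟨by linarith [hm.1], by linarith [hm.2]⟩
  · intro i
    rw [← dig_iter, gauss_phi hu ht]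

lemma vol_image {u : List ℕ} (hu : Good u) {A : Set ℝ} (hA : A ⊆ Ioo (0:ℝ) 1) :
    volume (phi u '' A) ≤ ENNReal.ofReal (1 / (Q u : ℝ) ^ 2) * volume A := by
  have hQ : (1:ℝ) ≤ Q u := by exact_mod_cast Q_pos hu
  have hl : LipschitzOnWith (Real.toNNReal (1 / (Q u : ℝ) ^ 2)) (phi u) A := by
    apply LipschitzOnWith.of_dist_le_mul
    intro x hx y hy
    rw [Real.dist_eq, Real.dist_eq, Real.coe_toNNReal _ (by positivity)]
    have := (phi_abs hu (Ioo_subset_Icc_self (hA hx)) (Ioo_subset_Icc_self (hA hy))).2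
    rw [div_mul_eq_mul_div, one_mul]
    exact this
  have h1 := hl.hausdorffMeasure_image_le (d := 1) zero_le_one
  rw [hausdorffMeasure_real] at h1
  simpa [ENNReal.ofReal] using h1

end Pool.Agent.N456.CN
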