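import Pool.Agent.N456.CN.Typ

/-!
Growth of the denominators for typical numbers.
-/

set_option autoImplicit false

open Filter Set MeasureTheory
open scoped Topology ENNReal

namespace Pool.Agent.N456.CN

open Pool.Agent.W811.Stu Pool.Agent.W174.Stu Pool.Agent.R357.CF

lemma log_Q_le {s : ℕ → ℕ} (hs : ∀ n, 1 ≤ s n) (n : ℕ) :
    Real.log (Q (pre s n)) ≤ ∑ i ∈ Finset.range n, Real.log (s i + 1) := by
  induction n with
  | zero => simp [pre, Q, cq]
  | succ n ih =>
    rw [pre_succ, Q_append, Finset.sum_range_succ]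
    have hg := pre_good hs n
    have h1 : (1:ℝ) ≤ Q (pre s n) := by exact_mod_cast Q_pos hg
    have h2 : (Q' (pre s n) : ℝ) ≤ Q (pre s n) := by exact_mod_cast Q'_le hg
    have h3 : (1:ℝ) ≤ s n := by exact_mod_cast hs n
    have h4 : (0:ℝ) ≤ Q' (pre s n) := by positivity
    push_cast
    calc Real.log ((s n : ℝ) * Q (pre s n) + Q' (pre s n)) ≤ Real.log (Q (pre s n) * (s n + 1)) := by
          apply Real.log_le_log (by nlinarith)
          nlinarith
      _ = Real.log (Q (pre s n)) + Real.log (s n + 1) := Real.log_mul (by positivity) (by positivity)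
      _ ≤ _ := by linarith

/-- the majorant -/
noncomputable def gf (x : ℝ) : ℝ := 2 * x ^ (-(1/2) : ℝ)

lemma gf_bound {x : ℝ} (hx : 0 < x) {d : ℕ} (hd : (d:ℝ) ≤ x⁻¹) : Real.log (d + 1) ≤ gf x := by
  have h1 : (d:ℝ) + 1 ≤ (1 + x ^ (-(1/2) : ℝ)) ^ 2 := by
    have h2 : (x ^ (-(1/2) : ℝ)) ^ 2 = x⁻¹ := by
      rw [← Real.rpow_natCast, ← Real.rpow_mul hx.le]
      norm_num
      exact Real.rpow_neg_one x
    have h3 : 0 < x ^ (-(1/2) : ℝ) := Real.rpow_pos_of_pos hx _
    nlinarith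
  have h3 : 0 < x ^ (-(1/2) : ℝ) := Real.rpow_pos_of_pos hx _
  calc Real.log (d + 1) ≤ Real.log ((1 + x ^ (-(1/2) : ℝ)) ^ 2) :=
        Real.log_le_log (by positivity) h1
    _ = 2 * Real.log (1 + x ^ (-(1/2) : ℝ)) := by rw [Real.log_pow]; norm_num
    _ ≤ 2 * x ^ (-(1/2) : ℝ) := by
        have := Real.log_le_sub_one_of_pos (show 0 < 1 + x ^ (-(1/2) : ℝ) by positivity)
        linarith
    _ = gf x := rfl

lemma measurable_gf : Measurable gf := by unfold gf; fun_prop

lemma gf_int : ∫⁻ x in Ico (0:ℝ) 1, ENNReal.ofReal (gf x) ≠ ∞ := by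
  have h1 : IntervalIntegrable (fun x : ℝ => x ^ (-(1/2) : ℝ)) volume 0 1 :=
    intervalIntegral.intervalIntegrable_rpow' (by norm_num)
  have h2 : IntegrableOn gf (Ioc (0:ℝ) 1) := by
    unfold gf
    exact ((intervalIntegrable_iff_integrableOn_Ioc_of_le zero_le_one).1 h1).const_mul 2
  rw [restrict_Ico_eq_restrict_Ioc]
  have h3 := h2.2
  have h4 := (hasFiniteIntegral_iff_ofReal (μ := volume.restrict (Ioc (0:ℝ) 1)) (f := gf) ?_).1 h3
  · exact h4.ne
  · refine (ae_restrict_mem measurableSet_Ioc).mono fun x hx => ?_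
    unfold gf
    have := Real.rpow_nonneg hx.1.le (-(1/2) : ℝ)
    simp only [Pi.zero_apply]
    positivity

lemma map_le (i : ℕ) : Measure.map (gauss^[i]) (volume.restrict (Ioo (0:ℝ) 1)) ≤
    (2 : ℝ≥0∞) • volume.restrict (Ico (0:ℝ) 1) := by
  rw [Measure.le_iff]
  intro A hA
  rw [Measure.map_apply (measurable_gauss_iterate i) hA, Measure.restrict_apply
    (measurable_gauss_iterate i hA), Measure.smul_apply, Measure.restrict_apply hA, smul_eq_mul]
  refine le_trans (measure_mono ?_) (vol_iter (A ∩ Ico 0 1) (hA.inter measurableSet_Ico) i)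
  rintro z ⟨h1, h2⟩
  refine ⟨⟨h1, ?_⟩, h2⟩
  cases i with
  | zero => exact Ioo_subset_Ico_self h2
  | succ i =>
    rw [Function.iterate_succ_apply']
    exact ⟨Int.fract_nonneg _, Int.fract_lt_one _⟩

lemma grow : ∀ η : ℝ, 0 < η → ∃ C : ℝ, 0 < C ∧ ∀ n : ℕ,
    volume {z | z ∈ Ioo (0:ℝ) 1 ∧ Irrational z ∧ Real.exp (C * n) < Q (pre (dig z) n)} ≤
      ENNReal.ofReal η := by
  intro η hη
  set K := ∫⁻ x in Ico (0:ℝ) 1, ENNReal.ofReal (gf x) with hK
  have hK1 : K ≠ ∞ := gf_int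
  set C : ℝ := (2 * K.toReal + 1) / η with hC
  have hC0 : 0 < C := by positivity
  refine ⟨C, hC0, ?_⟩
  intro n
  rcases Nat.eq_zero_or_pos n with rfl | hn
  · have : {z | z ∈ Ioo (0:ℝ) 1 ∧ Irrational z ∧ Real.exp (C * (0:ℕ)) < Q (pre (dig z) 0)} = ∅ := by
      ext z
      simp [pre, Q, cq]
    rw [this]
    simp
  have hn' : (0:ℝ) < n := by exact_mod_cast hn
  set F : ℝ → ℝ≥0∞ := fun z => ∑ i ∈ Finset.range n, ENNReal.ofReal (gf (gauss^[i] z)) with hF
  have hFm : Measurable F := by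
    refine Finset.measurable_sum _ fun i _ => ?_
    exact (measurable_gf.comp (measurable_gauss_iterate i)).ennreal_ofReal
  have h1 : ∫⁻ z in Ioo (0:ℝ) 1, F z ≤ n * (2 * K) := by
    have hsum := lintegral_finsetSum (μ := volume.restrict (Ioo (0:ℝ) 1)) (Finset.range n)
      (f := fun i z => ENNReal.ofReal (gf (gauss^[i] z))) (fun i _ =>
      (measurable_gf.comp (measurable_gauss_iterate i)).ennreal_ofReal)
    calc ∫⁻ z in Ioo (0:ℝ) 1, F z =
          ∑ i ∈ Finset.range n, ∫⁻ z in Ioo (0:ℝ) 1, ENNReal.ofReal (gf (gauss^[i] z)) := hsum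
      _ ≤ ∑ i ∈ Finset.range n, 2 * K := by
          refine Finset.sum_le_sum fun i _ => ?_
          rw [← lintegral_map (f := fun x => ENNReal.ofReal (gf x)) measurable_gf.ennreal_ofReal
            (measurable_gauss_iterate i)]
          calc _ ≤ ∫⁻ x, ENNReal.ofReal (gf x) ∂((2 : ℝ≥0∞) • volume.restrict (Ico (0:ℝ) 1)) :=
                lintegral_mono' (map_le i) le_rfl
            _ = 2 * K := by rw [lintegral_smul_measure]; rfl
      _ = n * (2 * K) := by rw [Finset.sum_const, Finset.card_range, nsmul_eq_mul]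
  have hsub : {z | z ∈ Ioo (0:ℝ) 1 ∧ Irrational z ∧ Real.exp (C * n) < Q (pre (dig z) n)} ⊆
      {z | ENNReal.ofReal (C * n) ≤ F z} ∩ Ioo 0 1 := by
    rintro z ⟨hz, hi, h2⟩
    refine ⟨?_, hz⟩
    have hs := (dig_props hi hz).1
    have h3 : C * n < Real.log (Q (pre (dig z) n)) := by
      rw [Real.lt_log_iff_exp_lt]
      · exact h2
      · have := Q_pos (pre_good hs n)
        exact_mod_cast this
    have h4 := log_Q_le hs n
    have h5 : ∑ i ∈ Finset.range n, Real.log (dig z i + 1) ≤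
        ∑ i ∈ Finset.range n, gf (gauss^[i] z) := by
      refine Finset.sum_le_sum fun i _ => ?_
      have hm := (iter_mem hi hz i).2
      apply gf_bound hm.1
      unfold dig
      exact Nat.floor_le (inv_nonneg.2 hm.1.le)
    show ENNReal.ofReal (C * n) ≤ ∑ i ∈ Finset.range n, ENNReal.ofReal (gf (gauss^[i] z))
    rw [← ENNReal.ofReal_sum_of_nonneg]
    · exact ENNReal.ofReal_le_ofReal (by linarith)
    · intro i _
      have hm := (iter_mem hi hz i).2
      unfold gf
      have := Real.rpow_nonneg hm.1.le (-(1/2) : ℝ)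
      positivity
  have hmk := mul_meas_ge_le_lintegral (μ := volume.restrict (Ioo (0:ℝ) 1)) hFm (ENNReal.ofReal (C * n))
  rw [Measure.restrict_apply (measurableSet_le measurable_const hFm)] at hmk
  have h6 : ENNReal.ofReal (C * n) * volume {z | z ∈ Ioo (0:ℝ) 1 ∧ Irrational z ∧
      Real.exp (C * n) < Q (pre (dig z) n)} ≤ n * (2 * K) := by
    refine le_trans ?_ (hmk.trans h1)
    gcongr
  have h7 : (n : ℝ≥0∞) * (2 * K) ≤ ENNReal.ofReal (C * n) * ENNReal.ofReal η := by
    rw [← ENNReal.ofReal_mul (by positivity)]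
    have e1 : (n : ℝ≥0∞) * (2 * K) = ENNReal.ofReal (n * (2 * K.toReal)) := by
      rw [ENNReal.ofReal_mul (by positivity), ENNReal.ofReal_mul (by norm_num), ENNReal.ofReal_toReal hK1,
        ENNReal.ofReal_natCast]
      simp
    rw [e1]
    apply ENNReal.ofReal_le_ofReal
    rw [hC]
    have : (2 * K.toReal + 1) / η * n * η = (2 * K.toReal + 1) * n := by field_simp
    rw [this]
    nlinarith
  have hpos : ENNReal.ofReal (C * n) ≠ 0 := by
    rw [Ne, ENNReal.ofReal_eq_zero, not_le]; positivity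
  exact (ENNReal.mul_le_mul_iff_right hpos ENNReal.ofReal_ne_top).1 (h6.trans h7)

end Pool.Agent.N456.CN
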