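import Pool.Agent.N456.CN.Grid

/-!
The Gauss measure of a cylinder does not change if the block is reversed.
-/

set_option autoImplicit false

open Filter Set MeasureTheory
open scoped Topology ENNReal NNReal

namespace Pool.Agent.N456.CN

open Pool.Agent.W811.Stu Pool.Agent.W174.Stu Pool.Agent.R357.CF

lemma gam_Ioo {a b : ℝ} (ha : 0 ≤ a) (hab : a ≤ b) (hb : b ≤ 1) :
    (gam (Ioo a b)).toReal = (Real.log (1 + b) - Real.log (1 + a)) / Real.log 2 := by
  have h1 : gam (Iio b) = gam (Iio a) + gam (Ico a b) := by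
    rw [← measure_union _ measurableSet_Ico]
    · congr 1
      ext x
      simp only [mem_Iio, mem_union, mem_Ico]
      constructor
      · intro h
        rcases lt_or_ge x a with h' | h'
        · exact Or.inl h'
        · exact Or.inr ⟨h', h⟩
      · rintro (h | h)
        · linarith
        · exact h.2
    · rw [Set.disjoint_left]
      intro x hx hx'
      exact absurd hx (not_lt.2 hx'.1)
  have h2 : gam (Ioo a b) = gam (Ico a b) := by
    apply measure_congr
    have h3 : Ioo a b =ᵐ[volume] Ico a b := Ioo_ae_eq_Ico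
    have h4 : (gam : Measure ℝ) ≪ volume := gam_ac.trans Measure.restrict_le_self.absolutelyContinuous
    exact h4.ae_eq h3
  rw [h2]
  have h5 : (gam (Iio b)).toReal = (gam (Iio a)).toReal + (gam (Ico a b)).toReal := by
    rw [h1, ENNReal.toReal_add (measure_ne_top _ _) (measure_ne_top _ _)]
  rw [gam_Iio (ha.trans hab) hb, gam_Iio ha (hab.trans hb), ENNReal.toReal_ofReal, ENNReal.toReal_ofReal] at h5
  · rw [sub_div]; linarith
  · exact div_nonneg (Real.log_nonneg (by linarith)) (Real.log_nonneg (by norm_num))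
  · exact div_nonneg (Real.log_nonneg (by linarith)) (Real.log_nonneg (by norm_num))

lemma phi_one {c : List ℕ} (hc : Good c) : phi c 1 = ((Pn c : ℝ) + Pn' c) / ((Q c : ℝ) + Q' c) := by
  have := (phi_formula hc (z := 1) zero_le_one).2
  rw [this]; simp [Pn, Pn']

lemma image_eq {c : List ℕ} (hc : Good c) : phi c '' Ioo (0:ℝ) 1 =
    Ioo (min (phi c 0) (phi c 1)) (max (phi c 0) (phi c 1)) := by
  ext z
  constructor
  · rintro ⟨t, ht, rfl⟩
    have a := phi_sign hc ht.1.le le_rfl ht.1
    have b := phi_sign hc zero_le_one ht.1.le ht.2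
    rcases neg_one_pow_eq_or ℝ c.length with e | e
    · rw [e, one_mul] at a b
      rw [min_eq_left (by linarith), max_eq_right (by linarith)]
      exact ⟨by linarith, by linarith⟩
    · rw [e] at a b
      rw [min_eq_right (by linarith), max_eq_left (by linarith)]
      exact ⟨by linarith, by linarith⟩
  · intro hz
    obtain ⟨t, ht, he⟩ := between hc le_rfl zero_lt_one le_rfl hz
    exact ⟨t, ht, he⟩

lemma mem_Cyl_iff {c : List ℕ} (hc : Good c) {y : ℝ} (hy : Irrational y) (h : y ∈ Ioo (0:ℝ) 1) :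
    y ∈ Cyl c ↔ y ∈ phi c '' Ioo (0:ℝ) 1 := by
  constructor
  · rintro ⟨_, h2⟩
    have h3 : pre (dig y) c.length = c := by
      apply List.ext_getElem
      · simp [pre]
      · intro i h4 h5
        simp only [pre, List.getElem_map, List.getElem_range]
        exact h2 ⟨i, h5⟩
    refine ⟨gauss^[c.length] y, (iter_mem hy h _).2, ?_⟩
    have := (dig_props hy h).2 c.length
    rw [h3] at this
    exact this.symm
  · rintro ⟨t, ht, rfl⟩
    refine ⟨h, fun i => ?_⟩
    have h3 := (dig_phi hc ht).1
    have := congrArg (fun l => l[(i:ℕ)]?) h3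
    simp only [pre, List.getElem?_map] at this
    rw [List.getElem?_range i.2, List.getElem?_eq_getElem i.2] at this
    simpa using this

lemma mu_eq {c : List ℕ} (hc : Good c) :
    mu c = |Real.log (1 + phi c 1) - Real.log (1 + phi c 0)| / Real.log 2 := by
  have h1 : gam (Cyl c) = gam (phi c '' Ioo (0:ℝ) 1) := by
    apply measure_congr
    filter_upwards [ae_irr] with y hy
    exact propext (mem_Cyl_iff hc hy.1 hy.2)
  unfold mu
  rw [h1, image_eq hc]
  have a0 := phi_mem_Icc hc (z := 0) ⟨le_rfl, zero_le_one⟩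
  have a1 := phi_mem_Icc hc (z := 1) ⟨zero_le_one, le_rfl⟩
  rcases le_total (phi c 0) (phi c 1) with h | h
  · rw [min_eq_left h, max_eq_right h, gam_Ioo a0.1 h a1.2, abs_of_nonneg]
    have := Real.log_le_log (show 0 < 1 + phi c 0 by linarith [a0.1]) (by linarith : 1 + phi c 0 ≤ 1 + phi c 1)
    linarith
  · rw [min_eq_right h, max_eq_left h, gam_Ioo a1.1 h a0.2, abs_sub_comm, abs_of_nonneg]
    have := Real.log_le_log (show 0 < 1 + phi c 1 by linarith [a1.1]) (by linarith : 1 + phi c 1 ≤ 1 + phi c 0)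
    linarith

lemma mu_form {c : List ℕ} (hc : Good c) : mu c =
    |Real.log ((((Q c : ℝ) + Q' c + Pn c + Pn' c) * Q c) / (((Q c : ℝ) + Q' c) * ((Q c : ℝ) + Pn c)))| /
      Real.log 2 := by
  rw [mu_eq hc, phi_one hc, phi_zero c hc]
  have hQ : (0:ℝ) < Q c := by exact_mod_cast Q_pos hc
  have h0 : (0:ℝ) ≤ Q' c := by positivity
  have h1 : (0:ℝ) ≤ Pn c := by positivity
  have h2 : (0:ℝ) ≤ Pn' c := by positivity
  congr 2
  rw [← Real.log_div (by positivity) (by positivity)]
  congr 1
  field_simp
  ring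

lemma mu_rev {c : List ℕ} (hc : Good c) : mu c.reverse = mu c := by
  rw [mu_form hc, mu_form (good_rev hc)]
  obtain ⟨h1, h2, h3, h4⟩ := cq_rev c
  rw [h1, h2, h3, h4]
  congr 4
  · ring
  · ring

end Pool.Agent.N456.CN
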