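import Pool.Agent.N456.CN.Words

/-!
Occurrences of a block in a word.
-/

set_option autoImplicit false

open Filter Set
open scoped Topology

namespace Pool.Agent.N456.CN

open Pool.Agent.W811.Stu Pool.Agent.W174.Stu Pool.Agent.R357.CF

/-- the block `c` occurs in `w` at position `n` -/
def At (c w : List ℕ) (n : ℕ) : Prop := n + c.length ≤ w.length ∧ (w.drop n).take c.length = c

instance (c w : List ℕ) (n : ℕ) : Decidable (At c w n) := by unfold At; infer_instance

/-- number of occurrences of `c` in `w` -/
def oc (c w : List ℕ) : ℕ := ((Finset.range w.length).filter (At c w)).card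

lemma oc_le (c w : List ℕ) : oc c w ≤ w.length := by
  unfold oc
  exact (Finset.card_filter_le _ _).trans (by simp)

lemma at_left {c u v : List ℕ} {n : ℕ} (h : n + c.length ≤ u.length) : At c (u ++ v) n ↔ At c u n := by
  unfold At
  have h2 : ((u ++ v).drop n).take c.length = (u.drop n).take c.length := by
    rw [List.drop_append_of_le_length (by omega), List.take_append_of_le_length (by simp; omega)]
  rw [h2]
  simp [h]
  intro _; omega

lemma at_right {c u v : List ℕ} {n : ℕ} : At c (u ++ v) (u.length + n) ↔ At c v n := by
  unfold At
  have h2 : (u ++ v).drop (u.length + n) = v.drop n := by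
    rw [List.drop_append, List.drop_eq_nil_of_le (by omega)]
    simp
  rw [h2, List.length_append]
  constructor
  · rintro ⟨a, b⟩; exact ⟨by omega, b⟩
  · rintro ⟨a, b⟩; exact ⟨by omega, b⟩

lemma oc_app_le (c u v : List ℕ) : oc c (u ++ v) ≤ oc c u + oc c v + c.length := by
  classical
  unfold oc
  have hsub : (Finset.range (u ++ v).length).filter (At c (u ++ v)) ⊆
      (((Finset.range u.length).filter (At c u)) ∪
      (((Finset.range v.length).filter (At c v)).image (fun n => u.length + n))) ∪
      ((Finset.range c.length).image (fun i => u.length - 1 - i)) := by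
    intro n hn
    simp only [Finset.mem_filter, Finset.mem_range, List.length_append] at hn
    simp only [Finset.mem_union, Finset.mem_filter, Finset.mem_range, Finset.mem_image]
    obtain ⟨h1, h2⟩ := hn
    by_cases h3 : n < u.length
    · by_cases h4 : n + c.length ≤ u.length
      · left; left
        exact ⟨h3, (at_left h4).1 h2⟩
      · right
        exact ⟨u.length - 1 - n, by omega, by omega⟩
    · left; right
      refine ⟨n - u.length, ⟨by omega, ?_⟩, by omega⟩
      rw [← at_right (u := u), show u.length + (n - u.length) = n by omega]
      exact h2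
  refine (Finset.card_le_card hsub).trans ((Finset.card_union_le _ _).trans ?_)
  refine Nat.add_le_add ((Finset.card_union_le _ _).trans ?_) ?_
  · exact Nat.add_le_add le_rfl Finset.card_image_le
  · exact Finset.card_image_le.trans (by simp)

lemma oc_app_ge (c u v : List ℕ) : oc c u + oc c v ≤ oc c (u ++ v) := by
  classical
  unfold oc
  have hsub : (((Finset.range u.length).filter (At c u)) ∪
      (((Finset.range v.length).filter (At c v)).image (fun n => u.length + n))) ⊆
      (Finset.range (u ++ v).length).filter (At c (u ++ v)) := by
    intro n hn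
    simp only [Finset.mem_union, Finset.mem_filter, Finset.mem_range, Finset.mem_image] at hn
    simp only [Finset.mem_filter, Finset.mem_range, List.length_append]
    rcases hn with ⟨h1, h2⟩ | ⟨m, ⟨h1, h2⟩, rfl⟩
    · exact ⟨by omega, (at_left h2.1).2 h2⟩
    · exact ⟨by omega, at_right.2 h2⟩
  refine le_trans (le_of_eq ?_) (Finset.card_le_card hsub)
  rw [Finset.card_union_of_disjoint, Finset.card_image_of_injective]
  · intro a b h; simpa using h
  · rw [Finset.disjoint_left]
    intro n h1 h2
    simp only [Finset.mem_filter, Finset.mem_range, Finset.mem_image] at h1 h2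
    obtain ⟨m, _, rfl⟩ := h2
    omega

lemma at_rev {c w : List ℕ} {n : ℕ} (h : n + c.length ≤ w.length) :
    At c.reverse w.reverse (w.length - c.length - n) ↔ At c w n := by
  unfold At
  simp only [List.length_reverse]
  have e : (w.reverse.drop (w.length - c.length - n)).take c.length = ((w.drop n).take c.length).reverse := by
    rw [List.drop_reverse, List.take_reverse, List.length_take]
    congr 1
    rw [List.drop_take]
    congr 1
    · omega
    · congr 1; omega
  rw [e, List.reverse_inj]
  constructor
  · rintro ⟨a, b⟩; exact ⟨h, b⟩
  · rintro ⟨a, b⟩; exact ⟨by omega, b⟩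

lemma oc_rev_le (c w : List ℕ) (hc : c ≠ []) : oc c w ≤ oc c.reverse w.reverse := by
  classical
  unfold oc
  have hcl : 0 < c.length := List.length_pos_iff.2 hc
  apply Finset.card_le_card_of_injOn (fun n => w.length - c.length - n)
  · intro n hn
    simp only [Finset.coe_filter, Finset.mem_range, Set.mem_ofPred_eq, List.length_reverse] at hn ⊢
    obtain ⟨h1, h2⟩ := hn
    have h3 := h2.1
    exact ⟨by omega, (at_rev h3).2 h2⟩
  · intro a ha b hb hab
    simp only [Finset.coe_filter, Finset.mem_range, Set.mem_ofPred_eq] at ha hb
    have h1 := ha.2.1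
    have h2 := hb.2.1
    simp only at hab
    omega

lemma oc_rev (c w : List ℕ) (hc : c ≠ []) : oc c.reverse w.reverse = oc c w := by
  apply le_antisymm _ (oc_rev_le c w hc)
  have := oc_rev_le c.reverse w.reverse (by simpa using hc)
  simpa using this

/-- occurrences in a sequence -/
def cs (s : ℕ → ℕ) (c : List ℕ) (N : ℕ) : ℕ :=
  ((Finset.range N).filter (fun n => ∀ i : Fin c.length, s (n + i) = c.get i)).card

lemma at_pre {s : ℕ → ℕ} {c : List ℕ} {N n : ℕ} (h : n + c.length ≤ N) :
    At c (pre s N) n ↔ ∀ i : Fin c.length, s (n + i) = c.get i := by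
  unfold At
  rw [pre_length]
  have e : ((pre s N).drop n).take c.length = (List.range c.length).map (fun i => s (n + i)) := by
    apply List.ext_getElem
    · simp [pre]; omega
    · intro i h1 h2
      simp only [List.length_map, List.length_range] at h2
      simp [pre]
  rw [e]
  constructor
  · rintro ⟨_, h2⟩ i
    have := congrArg (fun l => l[(i:ℕ)]?) h2
    simp only [List.getElem?_map] at this
    rw [List.getElem?_range i.2, List.getElem?_eq_getElem i.2] at this
    simpa using this
  · intro h2
    refine ⟨h, ?_⟩
    apply List.ext_getElem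
    · simp
    · intro i h3 h4
      simp only [List.getElem_map, List.getElem_range]
      exact h2 ⟨i, h4⟩

lemma oc_pre_le (s : ℕ → ℕ) (c : List ℕ) (N : ℕ) : oc c (pre s N) ≤ cs s c N := by
  classical
  unfold oc cs
  apply Finset.card_le_card
  intro n hn
  simp only [Finset.mem_filter, Finset.mem_range, pre_length] at hn ⊢
  have := hn.2.1
  rw [pre_length] at this
  exact ⟨hn.1, (at_pre this).1 hn.2⟩

lemma le_oc_pre (s : ℕ → ℕ) (c : List ℕ) (N : ℕ) : cs s c N ≤ oc c (pre s N) + c.length := by
  classical
  unfold oc cs
  have hsub : (Finset.range N).filter (fun n => ∀ i : Fin c.length, s (n + i) = c.get i) ⊆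
      ((Finset.range (pre s N).length).filter (At c (pre s N))) ∪
      ((Finset.range c.length).image (fun i => N - 1 - i)) := by
    intro n hn
    simp only [Finset.mem_filter, Finset.mem_range] at hn
    simp only [Finset.mem_union, Finset.mem_filter, Finset.mem_range, Finset.mem_image, pre_length]
    by_cases h : n + c.length ≤ N
    · left
      exact ⟨hn.1, (at_pre h).2 hn.2⟩
    · right
      exact ⟨N - 1 - n, by omega, by omega⟩
  refine (Finset.card_le_card hsub).trans ((Finset.card_union_le _ _).trans ?_)
  exact Nat.add_le_add le_rfl (Finset.card_image_le.trans (by simp))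

lemma take_pre (s : ℕ → ℕ) {n N : ℕ} (h : n ≤ N) : (pre s N).take n = pre s n := by
  apply List.ext_getElem
  · simp [pre]; omega
  · intro i h1 h2
    simp [pre]

end Pool.Agent.N456.CN
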