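import Pool.Agent.N456.CN.Count

/-!
For every word `w0` and every large `q` there is a continuation of `w0` by a typical word such that the
denominator of the whole word divides `q`.
-/

set_option autoImplicit false

open Filter Set MeasureTheory
open scoped Topology ENNReal NNReal

namespace Pool.Agent.N456.CN

open Pool.Agent.W811.Stu Pool.Agent.W174.Stu Pool.Agent.R357.CF

/-- the word of `P` reversed has an atypical prefix with small denominator -/
lemma cntC {B : Finset (List ℕ)} {ε : ℝ} {n0 : ℕ} {η : ℝ} (hη : 0 ≤ η)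
    (hBad : volume (Bad B ε n0) ≤ ENNReal.ofReal η) {q : ℕ} (hq : 0 < q)
    (S : Finset ℕ) (hS : ∀ P ∈ S, P < q ∧ ∃ v r : List ℕ, (Wd q P).reverse = v ++ r ∧
      4 * (Q v) ^ 2 ≤ q ∧ Aty B ε n0 v) :
    (S.card : ℝ) ≤ 2 * (q * η) := by
  classical
  have h1 : (S.image (sg q)).card = S.card := by
    apply Finset.card_image_of_injOn
    intro a ha b hb hab
    have h2 := sg_sg (hS a ha).1
    have h3 := sg_sg (hS b hb).1
    rw [← h2, ← h3, hab]
  rw [← h1]
  have h4 := cntA (w0 := []) hη hBad good_nil hq (S.image (sg q)) (by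
    intro P hP
    obtain ⟨P', hP', rfl⟩ := Finset.mem_image.1 hP
    obtain ⟨hlt, v, r, h5, h6, h7⟩ := hS P' hP'
    obtain ⟨h8, h9⟩ := sg_spec hlt
    exact ⟨h8, v, r, by rw [h9, h5]; rfl, by simpa using h6, h7⟩)
  refine h4.trans ?_
  simp [Q, cq]

lemma len_le {W : List ℕ} (hW : Good W) {q : ℕ} (hq : 0 < q) (h : Q W ∣ q) :
    (W.length : ℝ) ≤ 4 * Real.log q + 1 := by
  have h1 := (Q_grow hW).2.2
  have h2 : Q W ≤ q := Nat.le_of_dvd hq h
  have h3 : (2:ℝ) ^ (W.length / 2) ≤ q := by exact_mod_cast h1.trans h2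
  have h4 : ((W.length / 2 : ℕ) : ℝ) * Real.log 2 ≤ Real.log q := by
    rw [← Real.log_pow]
    exact Real.log_le_log (by positivity) h3
  have h5 : (W.length : ℝ) ≤ 2 * ((W.length / 2 : ℕ) : ℝ) + 1 := by
    have : W.length ≤ 2 * (W.length / 2) + 1 := by omega
    exact_mod_cast this
  have h6 := Real.log_two_gt_d9
  have h7 : (0:ℝ) ≤ ((W.length / 2 : ℕ) : ℝ) := by positivity
  nlinarith

/-- the error of an infix -/
lemma infix_err {c : List ℕ} (hc : c ≠ []) (hcg : Good c) {ε : ℝ} {n0 : ℕ} {r : List ℕ}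
    (h : ∀ j ≤ r.length, |(oc c.reverse (r.reverse.take j) : ℝ) - j * mu c.reverse| ≤ ε * j + n0 + c.length)
    (hε : 0 ≤ ε) (i : ℕ) (hi : i ≤ r.length) :
    |(oc c (r.take i) : ℝ) - i * mu c| ≤ 2 * ε * r.length + 2 * n0 + 3 * c.length := by
  have e1 : ∀ j ≤ r.length, oc c.reverse (r.reverse.take j) = oc c (r.drop (r.length - j)) := by
    intro j hj
    rw [← oc_rev c (r.drop (r.length - j)) hc, List.take_reverse]
  have h1 := h r.length le_rfl
  have h2 := h (r.length - i) (by omega)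
  rw [e1 _ le_rfl, mu_rev hcg, show r.length - r.length = 0 by omega, List.drop_zero] at h1
  rw [e1 _ (by omega), mu_rev hcg, show r.length - (r.length - i) = i by omega] at h2
  have h3 := oc_app_le c (r.take i) (r.drop i)
  have h4 := oc_app_ge c (r.take i) (r.drop i)
  rw [List.take_append_drop] at h3 h4
  have h3' : (oc c r : ℝ) ≤ oc c (r.take i) + oc c (r.drop i) + c.length := by exact_mod_cast h3
  have h4' : (oc c (r.take i) : ℝ) + oc c (r.drop i) ≤ oc c r := by exact_mod_cast h4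
  rw [Nat.cast_sub hi] at h2
  have hi' : (0:ℝ) ≤ i := by positivity
  have hir : (i:ℝ) ≤ r.length := by exact_mod_cast hi
  rw [abs_le] at h1 h2 ⊢
  have h5 : ε * ((r.length : ℝ) - i) ≤ ε * r.length := by
    apply mul_le_mul_of_nonneg_left _ hε; linarith
  constructor
  · nlinarith [h1.1, h2.2]
  · nlinarith [h1.2, h2.1]

lemma stage (B : Finset (List ℕ)) (hB : ∀ c ∈ B, c ≠ [] ∧ Good c) {ε : ℝ} (hε : 0 < ε) :
    ∃ n1 : ℕ, ∀ w0 : List ℕ, Good w0 → ∀ M : ℕ, ∃ q0 : ℕ, ∀ q : ℕ, q0 ≤ q →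
      ∃ v : List ℕ, Good v ∧ Q (w0 ++ v) ∣ q ∧ M ≤ v.length ∧
        ∀ c ∈ B, ∀ n ≤ v.length, |(oc c (v.take n) : ℝ) - n * mu c| ≤ ε * n + n1 + 6 * c.length := by
  classical
  obtain ⟨n0, hn0⟩ := bad_small B (half_pos hε) (show (0:ℝ) < 1 / 16 by norm_num)
  refine ⟨n0 + 5, ?_⟩
  intro w0 hw0 M
  have hQ0 : (1:ℝ) ≤ Q w0 := by exact_mod_cast Q_pos hw0
  have hQ'0 : (Q' w0 : ℝ) ≤ Q w0 := by exact_mod_cast Q'_le hw0
  have hQ'00 : (0:ℝ) ≤ Q' w0 := by positivity
  set κ : ℝ := 1 / (2 * (Q w0 : ℝ) ^ 2) with hκ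
  have hκ0 : 0 < κ := by positivity
  obtain ⟨C, hC, hgrow⟩ := grow (κ / 16) (by positivity)
  set ε2 : ℝ := ε / (2 * (64 * C + 4)) with hε2
  have hε20 : 0 < ε2 := by positivity
  obtain ⟨n2, hn2⟩ := bad_small (B.image List.reverse) hε20 (show (0:ℝ) < κ / 16 by positivity)
  set N1 : ℕ := 2 * w0.length + 1 + M + ⌈8 * (n2:ℝ) / ε⌉₊ + w0.length with hN1
  refine ⟨⌈Real.exp (4 * C * N1)⌉₊ + 16 + ⌈4 / κ⌉₊, ?_⟩
  intro q hq
  have hq16 : 16 ≤ q := by omega
  have hq0 : 0 < q := by omega
  have hq' : (0:ℝ) < q := by exact_mod_cast hq0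
  have hq16' : (16:ℝ) ≤ q := by exact_mod_cast hq16
  have hqexp : Real.exp (4 * C * N1) ≤ q := by
    refine (Nat.le_ceil _).trans ?_
    exact_mod_cast (show ⌈Real.exp (4 * C * N1)⌉₊ ≤ q by omega)
  have hqκ : 4 / κ ≤ q := by
    refine (Nat.le_ceil _).trans ?_
    exact_mod_cast (show ⌈4 / κ⌉₊ ≤ q by omega)
  have hlogq : 4 * C * N1 ≤ Real.log q := by
    rw [Real.le_log_iff_exp_le hq']; exact hqexp
  set ns : ℕ := ⌊Real.log q / (4 * C)⌋₊ with hns
  have hlog0 : 0 ≤ Real.log q := Real.log_nonneg (by linarith)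
  have hns1 : (ns:ℝ) ≤ Real.log q / (4 * C) := Nat.floor_le (by positivity)
  have hns2 : Real.log q / (4 * C) < ns + 1 := Nat.lt_floor_add_one _
  have hnsN : N1 ≤ ns := by
    apply Nat.le_floor
    rw [le_div_iff₀ (by positivity)]
    linarith
  rw [le_div_iff₀ (by positivity)] at hns1
  rw [div_lt_iff₀ (by positivity)] at hns2
  have hexpns : 4 * (Real.exp (C * ns)) ^ 2 ≤ q := by
    have h1 : (Real.exp (C * ns)) ^ 2 * (Real.exp (C * ns)) ^ 2 ≤ q := by
      rw [← pow_add, ← Real.exp_nat_mul, ← Real.le_log_iff_exp_le hq']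
      push_cast
      linarith
    have h0 : 0 < (Real.exp (C * ns)) ^ 2 := by positivity
    by_contra hc
    rw [not_le] at hc
    nlinarith
  -- the sets of residues
  set α := min (phi w0 0) (phi w0 1) with hα
  set β := max (phi w0 0) (phi w0 1) with hβ
  have hβα : 1 / (2 * (Q w0 : ℝ) ^ 2) ≤ β - α := by
    have h1 : β - α = |phi w0 1 - phi w0 0| := by rw [hα, hβ, max_sub_min_eq_abs]
    rw [h1, phi_len hw0 zero_le_one, mul_one]
    apply one_div_le_one_div_of_le (by positivity)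
    nlinarith
  set T : Finset ℕ := (Finset.range q).filter (fun P : ℕ => α < (P:ℝ) / q ∧ (P:ℝ) / q < β) with hT
  have hTc : q * κ - 1 ≤ (T.card : ℝ) := by
    refine le_trans ?_ (many hq0 (α := α) (β := β) ?_ ?_)
    · have : (q:ℝ) * κ ≤ q * (β - α) := mul_le_mul_of_nonneg_left hβα hq'.le
      linarith
    · exact le_min (phi_mem_Icc hw0 ⟨le_rfl, zero_le_one⟩).1 (phi_mem_Icc hw0 ⟨zero_le_one, le_rfl⟩).1
    · exact max_le (phi_mem_Icc hw0 ⟨le_rfl, zero_le_one⟩).2 (phi_mem_Icc hw0 ⟨zero_le_one, le_rfl⟩).2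
  set SA : Finset ℕ := (Finset.range q).filter (fun P : ℕ => ∃ v r : List ℕ, Wd q P = w0 ++ (v ++ r) ∧
      4 * (Q (w0 ++ v)) ^ 2 ≤ q ∧ Aty B (ε / 2) n0 v) with hSA
  set SB : Finset ℕ := (Finset.range q).filter (fun P : ℕ =>
      ¬ (ns ≤ (Wd q P).length ∧ 4 * (Q ((Wd q P).take ns)) ^ 2 ≤ q)) with hSB
  set SC : Finset ℕ := (Finset.range q).filter (fun P : ℕ => ∃ v r : List ℕ, (Wd q P).reverse = v ++ r ∧
      4 * (Q v) ^ 2 ≤ q ∧ Aty (B.image List.reverse) ε2 n2 v) with hSC
  have hA := cntA (by norm_num) hn0 hw0 hq0 SA (fun P hP => by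
    rw [hSA, Finset.mem_filter, Finset.mem_range] at hP; exact hP)
  have hBc := cntB hC (by positivity) (hgrow ns) hexpns SB (fun P hP => by
    rw [hSB, Finset.mem_filter, Finset.mem_range] at hP; exact hP)
  have hCc := cntC (by positivity) hn2 hq0 SC (fun P hP => by
    rw [hSC, Finset.mem_filter, Finset.mem_range] at hP; exact hP)
  have hne : ∃ P ∈ T, P ∉ SA ∧ P ∉ SB ∧ P ∉ SC := by
    by_contra hcon
    push Not at hcon
    have hsub : T ⊆ SA ∪ (SB ∪ SC) := by
      intro P hP
      simp only [Finset.mem_union]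
      by_cases a : P ∈ SA
      · exact Or.inl a
      by_cases b : P ∈ SB
      · exact Or.inr (Or.inl b)
      · exact Or.inr (Or.inr (hcon P hP a b))
    have h1 : T.card ≤ SA.card + (SB.card + SC.card) :=
      (Finset.card_le_card hsub).trans ((Finset.card_union_le _ _).trans
        (Nat.add_le_add le_rfl (Finset.card_union_le _ _)))
    have h1' : (T.card : ℝ) ≤ SA.card + (SB.card + SC.card) := by exact_mod_cast h1
    have h2 : (1 / 16 : ℝ) / (Q w0 : ℝ) ^ 2 = κ / 8 := by
      rw [hκ]; field_simp; norm_num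
    rw [h2] at hA
    have h3 : (4:ℝ) ≤ q * κ := by
      rw [div_le_iff₀ hκ0] at hqκ; exact hqκ
    nlinarith
  obtain ⟨P, hPT, hPA, hPB, hPC⟩ := hne
  rw [hT, Finset.mem_filter, Finset.mem_range] at hPT
  obtain ⟨hPq, hP1, hP2⟩ := hPT
  obtain ⟨hg, -, hval⟩ := Wd_spec hPq
  have hdvd := Wd_dvd hPq
  rw [hSA, Finset.mem_filter, Finset.mem_range, not_and] at hPA
  rw [hSB, Finset.mem_filter, Finset.mem_range, not_and, not_not] at hPB
  rw [hSC, Finset.mem_filter, Finset.mem_range, not_and] at hPC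
  have hPA := hPA hPq
  obtain ⟨hns3, hns4⟩ := hPB hPq
  have hPC := hPC hPq
  set W := Wd q P with hW
  obtain ⟨v, hv⟩ : w0 <+: W := by
    apply prefix_of_mem hw0 hg
    obtain ⟨t, ht, he⟩ := between hw0 le_rfl zero_lt_one le_rfl (z := (P:ℝ) / q) ⟨hP1, hP2⟩
    exact ⟨t, ht, by rw [he, hval]⟩
  have hgv : Good v := by rw [← hv] at hg; exact Good.right hg
  have hlen : W.length = w0.length + v.length := by rw [← hv, List.length_append]
  refine ⟨v, hgv, by rw [hv]; exact hdvd, by omega, ?_⟩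
  -- the longest prefix with small denominator
  obtain ⟨m, hm1, hm2, hm3, hm4⟩ : ∃ m, m ≤ W.length ∧ 4 * (Q (W.take m)) ^ 2 ≤ q ∧
      (m < W.length → ¬ 4 * (Q (W.take (m + 1))) ^ 2 ≤ q) ∧ ns ≤ m := by
    set m := Nat.findGreatest (fun m => 4 * (Q (W.take m)) ^ 2 ≤ q) W.length with hm
    refine ⟨m, Nat.findGreatest_le _, ?_, ?_, ?_⟩
    · exact Nat.findGreatest_spec (P := fun m => 4 * (Q (W.take m)) ^ 2 ≤ q) hns3 hns4
    · intro hlt
      exact Nat.findGreatest_is_greatest (P := fun m => 4 * (Q (W.take m)) ^ 2 ≤ q) (Nat.lt_succ_self _) hlt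
    · exact Nat.le_findGreatest hns3 hns4
  set j0 := m - w0.length with hj0
  have hmw : w0.length ≤ m := by omega
  have hj0v : j0 ≤ v.length := by omega
  have hWtake : ∀ n ≤ v.length, W.take (w0.length + n) = w0 ++ v.take n := by
    intro n _
    rw [← hv, List.take_append, List.take_of_length_le (by omega), show w0.length + n - w0.length = n by omega]
  -- first part
  have hfirst : ∀ c ∈ B, ∀ n ≤ j0, |(oc c (v.take n) : ℝ) - n * mu c| ≤ ε / 2 * n + n0 + c.length := by
    intro c hc n hn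
    by_contra hcon
    rw [not_le] at hcon
    apply hPA
    have hl : (v.take n).length = n := by rw [List.length_take]; omega
    refine ⟨v.take n, v.drop n, by rw [List.take_append_drop]; exact hv.symm, ?_, c, hc, ?_⟩
    · rw [← hWtake n (by omega)]
      refine le_trans ?_ hm2
      have := Q_take_mono hg (show w0.length + n ≤ m by omega)
      gcongr
    · rw [hl]; exact hcon
  -- second part
  set r := v.drop j0 with hr
  have hrg : Good r := good_drop hgv _
  set r2 := r.drop 5 with hr2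
  have hr2g : Good r2 := good_drop hrg _
  have hr2Q : 4 * (Q r2) ^ 2 ≤ q := by
    rcases Nat.lt_or_ge (m + 5) W.length with hlt | hge
    · have h1 := hm3 (by omega)
      rw [not_le] at h1
      have h2 : W = W.take (m + 1) ++ ((W.drop (m + 1)).take 4 ++ r2) := by
        have h3 : r2 = (W.drop (m + 1)).drop 4 := by
          rw [hr2, hr, ← hv, List.drop_drop, List.drop_drop, List.drop_append,
            List.drop_eq_nil_of_le (show w0.length ≤ m + 1 + 4 by omega), List.nil_append]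
          congr 1; omega
        rw [h3, List.take_append_drop, List.take_append_drop]
      have h3 : 4 ≤ Q ((W.drop (m + 1)).take 4) := by
        have h4 := (Q_grow (good_take (good_drop hg (m + 1)) 4)).2.2
        have h5 : ((W.drop (m + 1)).take 4).length = 4 := by
          rw [List.length_take, List.length_drop]; omega
        rw [h5] at h4
        exact h4
      have h6 : Q (W.take (m + 1)) * (4 * Q r2) ≤ q := by
        calc Q (W.take (m + 1)) * (4 * Q r2) ≤ Q (W.take (m + 1)) * (Q ((W.drop (m + 1)).take 4) * Q r2) := by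
              gcongr
          _ ≤ Q (W.take (m + 1)) * Q ((W.drop (m + 1)).take 4 ++ r2) :=
              Nat.mul_le_mul le_rfl (Q_mul_le _ _)
          _ ≤ Q (W.take (m + 1) ++ ((W.drop (m + 1)).take 4 ++ r2)) := Q_mul_le _ _
          _ = Q W := by rw [← h2]
          _ ≤ q := Nat.le_of_dvd hq0 hdvd
      by_contra hcon
      rw [not_le] at hcon
      have h7 : (q:ℝ) < 4 * (Q (W.take (m + 1)) : ℝ) ^ 2 := by exact_mod_cast h1
      have h8 : (Q (W.take (m + 1)) : ℝ) * (4 * Q r2) ≤ q := by exact_mod_cast h6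
      have h9 : (q:ℝ) < 4 * (Q r2 : ℝ) ^ 2 := by exact_mod_cast hcon
      have h10 : (q:ℝ) * q < (4 * (Q (W.take (m + 1)) : ℝ) ^ 2) * (4 * (Q r2 : ℝ) ^ 2) :=
        mul_lt_mul'' h7 h9 hq'.le hq'.le
      have h11 : ((Q (W.take (m + 1)) : ℝ) * (4 * Q r2)) * ((Q (W.take (m + 1)) : ℝ) * (4 * Q r2)) ≤ q * q :=
        mul_le_mul h8 h8 (by positivity) hq'.le
      nlinarith
    · have : r2 = [] := by
        rw [hr2, hr]
        apply List.drop_eq_nil_of_le
        rw [List.length_drop]; omega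
      rw [this]
      simp [Q, cq]
      omega
  have hWrev : W = (w0 ++ v.take (j0 + 5)) ++ r2 := by
    have : r2 = v.drop (j0 + 5) := by rw [hr2, hr, List.drop_drop]
    rw [this, List.append_assoc, List.take_append_drop]
    exact hv.symm
  have hsuf : ∀ c ∈ B, ∀ j ≤ r2.length,
      |(oc c.reverse (r2.reverse.take j) : ℝ) - j * mu c.reverse| ≤ ε2 * j + n2 + c.length := by
    intro c hc j hj
    by_contra hcon
    rw [not_le] at hcon
    apply hPC
    have hl : (r2.reverse.take j).length = j := by rw [List.length_take, List.length_reverse]; omega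
    refine ⟨r2.reverse.take j, r2.reverse.drop j ++ (w0 ++ v.take (j0 + 5)).reverse, ?_, ?_, c.reverse,
      Finset.mem_image_of_mem _ hc, ?_⟩
    · rw [← List.append_assoc, List.take_append_drop, ← List.reverse_append, ← hWrev]
    · refine le_trans ?_ hr2Q
      have h1 : Q (r2.reverse.take j) ≤ Q r2 := by
        have := Q_take_mono (good_rev hr2g) (show j ≤ r2.reverse.length by rw [List.length_reverse]; exact hj)
        rw [List.take_length, Q_rev] at this
        exact this
      gcongr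
    · rw [hl, List.length_reverse]; exact hcon
  -- bound for the length of the second part
  have hlenW := len_le hg hq0 hdvd
  have hr2len : (r2.length : ℝ) ≤ W.length := by
    have : r2.length ≤ W.length := by
      rw [hWrev, List.length_append]; omega
    exact_mod_cast this
  have hsecond : 2 * ε2 * r2.length + 2 * n2 ≤ ε / 2 * j0 := by
    have h1 : (r2.length : ℝ) ≤ (16 * C + 1) * (ns + 1) := by
      nlinarith
    have h2 : 2 * ε2 * r2.length ≤ ε / 4 * (ns + 1) := by
      calc 2 * ε2 * r2.length ≤ 2 * ε2 * ((16 * C + 1) * (ns + 1)) := by gcongr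
        _ = ε / 4 * (ns + 1) := by
          rw [hε2]; field_simp; ring
    have h3 : (ns:ℝ) - w0.length ≤ j0 := by
      have : ns ≤ j0 + w0.length := by omega
      have : (ns:ℝ) ≤ j0 + w0.length := by exact_mod_cast this
      linarith
    have h4 : (2 * w0.length + 1 + 8 * (n2:ℝ) / ε : ℝ) ≤ ns := by
      have h5 : ((2 * w0.length + 1 + ⌈8 * (n2:ℝ) / ε⌉₊ : ℕ) : ℝ) ≤ ns := by
        exact_mod_cast (show 2 * w0.length + 1 + ⌈8 * (n2:ℝ) / ε⌉₊ ≤ ns by omega)
      push_cast at h5
      have h6 := Nat.le_ceil (8 * (n2:ℝ) / ε)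
      linarith
    have h5 : 2 * (n2:ℝ) = ε / 4 * (8 * (n2:ℝ) / ε) := by field_simp; ring
    rw [h5]
    calc 2 * ε2 * r2.length + ε / 4 * (8 * (n2:ℝ) / ε)
        ≤ ε / 4 * (ns + 1) + ε / 4 * (8 * (n2:ℝ) / ε) := by linarith
      _ = ε / 4 * (ns + 1 + 8 * (n2:ℝ) / ε) := by ring
      _ ≤ ε / 4 * (2 * (ns - w0.length)) := by
          apply mul_le_mul_of_nonneg_left _ (by positivity)
          linarith
      _ = ε / 2 * (ns - w0.length) := by ring
      _ ≤ ε / 2 * j0 := by apply mul_le_mul_of_nonneg_left h3 (by positivity)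
  intro c hc n hn
  obtain ⟨hcne, hcg⟩ := hB c hc
  have hclen : (0:ℝ) ≤ c.length := by positivity
  have hmu0 := mu_nonneg c
  have hmu1 := mu_le_one c
  rcases Nat.lt_or_ge j0 n with hlt | hge
  · -- n > j0
    obtain ⟨i, rfl⟩ := Nat.exists_eq_add_of_lt hlt
    have hsplit : v.take (j0 + i + 1) = v.take j0 ++ r.take (i + 1) := by
      rw [hr, add_assoc, List.take_add]
    have h1 := hfirst c hc j0 le_rfl
    have h2 := oc_app_le c (v.take j0) (r.take (i + 1))
    have h3 := oc_app_ge c (v.take j0) (r.take (i + 1))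
    rw [← hsplit] at h2 h3
    have h2' : (oc c (v.take (j0 + i + 1)) : ℝ) ≤ oc c (v.take j0) + oc c (r.take (i + 1)) + c.length := by
      exact_mod_cast h2
    have h3' : (oc c (v.take j0) : ℝ) + oc c (r.take (i + 1)) ≤ oc c (v.take (j0 + i + 1)) := by
      exact_mod_cast h3
    have hrlen : r.length = v.length - j0 := by rw [hr, List.length_drop]
    have h4 : |(oc c (r.take (i + 1)) : ℝ) - (i + 1) * mu c| ≤
        5 + 2 * ε2 * r2.length + 2 * n2 + 4 * c.length := by
      rcases Nat.lt_or_ge 5 (i + 1) with h5 | h5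
      · obtain ⟨k, hk⟩ : ∃ k, i + 1 = 5 + k := ⟨i + 1 - 5, by omega⟩
        have e1 : r.take (i + 1) = r.take 5 ++ r2.take k := by rw [hk, hr2, List.take_add]
        have a1 := oc_app_le c (r.take 5) (r2.take k)
        have a2 := oc_app_ge c (r.take 5) (r2.take k)
        rw [← e1] at a1 a2
        have a1' : (oc c (r.take (i + 1)) : ℝ) ≤ oc c (r.take 5) + oc c (r2.take k) + c.length := by
          exact_mod_cast a1
        have a2' : (oc c (r.take 5) : ℝ) + oc c (r2.take k) ≤ oc c (r.take (i + 1)) := by exact_mod_cast a2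
        have a3 : (oc c (r.take 5) : ℝ) ≤ 5 := by
          have : oc c (r.take 5) ≤ 5 := (oc_le _ _).trans (by rw [List.length_take]; omega)
          exact_mod_cast this
        have a4 : (0:ℝ) ≤ oc c (r.take 5) := by positivity
        have hr2l : r2.length = r.length - 5 := by rw [hr2, List.length_drop]
        have a5 := infix_err hcne hcg (hsuf c hc) hε20.le k (by omega)
        have hk' : (i:ℝ) + 1 = 5 + k := by exact_mod_cast hk
        rw [hk']
        rw [abs_le] at a5 ⊢
        constructor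
        · nlinarith [a5.1]
        · nlinarith [a5.2]
      · have a1 : (oc c (r.take (i + 1)) : ℝ) ≤ i + 1 := by
          have : oc c (r.take (i + 1)) ≤ i + 1 := (oc_le _ _).trans (by rw [List.length_take]; omega)
          exact_mod_cast this
        have a2 : (0:ℝ) ≤ oc c (r.take (i + 1)) := by positivity
        have a3 : (i:ℝ) + 1 ≤ 5 := by exact_mod_cast h5
        have a4 : (0:ℝ) ≤ i := by positivity
        have a5 : (0:ℝ) ≤ 2 * ε2 * r2.length := by positivity
        have a6 : (0:ℝ) ≤ n2 := by positivity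
        rw [abs_le]
        constructor <;> nlinarith
    have hj0n : (j0:ℝ) ≤ (j0 + i + 1 : ℕ) := by push_cast; linarith [show (0:ℝ) ≤ i by positivity]
    have h6 : ε / 2 * (j0:ℝ) ≤ ε / 2 * ((j0 + i + 1 : ℕ) : ℝ) := by gcongr
    have e7 : ((j0 + i + 1 : ℕ) : ℝ) * mu c = j0 * mu c + (i + 1) * mu c := by push_cast; ring
    rw [e7]
    push_cast at h6 ⊢
    rw [abs_le] at h1 h4 ⊢
    constructor
    · linarith [h1.1, h4.1]
    · linarith [h1.2, h4.2]
  · refine (hfirst c hc n hge).trans ?_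
    have : (0:ℝ) ≤ ε / 2 * n := by positivity
    push_cast
    linarith

end Pool.Agent.N456.CN
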