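import Pool.Agent.N456.CN.Occ
import Pool.Agent.R357.CF.Norm

/-!
Typical digit sequences: block frequencies and growth of the denominators.
-/

set_option autoImplicit false

open Filter Set MeasureTheory
open scoped Topology ENNReal

namespace Pool.Agent.N456.CN

open Pool.Agent.W811.Stu Pool.Agent.W174.Stu Pool.Agent.R357.CF

/-- the cylinder of a block -/
def Cyl (c : List ℕ) : Set ℝ := {y | y ∈ Ioo (0:ℝ) 1 ∧ ∀ i : Fin c.length, dig y i = c.get i}

lemma measurable_dig (k : ℕ) : Measurable (fun y => dig y k) := by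
  unfold dig
  exact Nat.measurable_floor.comp (measurable_gauss_iterate k).inv

lemma measurable_Cyl (c : List ℕ) : MeasurableSet (Cyl c) := by
  have : Cyl c = Ioo (0:ℝ) 1 ∩ ⋂ i : Fin c.length, {y | dig y i = c.get i} := by
    ext y; simp [Cyl]
  rw [this]
  refine measurableSet_Ioo.inter (MeasurableSet.iInter fun i => ?_)
  exact measurable_dig i (measurableSet_singleton _)

/-- the Gauss measure of the cylinder -/
noncomputable def mu (c : List ℕ) : ℝ := (gam (Cyl c)).toReal

lemma mu_nonneg (c : List ℕ) : 0 ≤ mu c := ENNReal.toReal_nonneg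

lemma mu_le_one (c : List ℕ) : mu c ≤ 1 := by
  unfold mu
  have h : gam (Cyl c) ≤ 1 := prob_le_one
  calc (gam (Cyl c)).toReal ≤ (1 : ℝ≥0∞).toReal := ENNReal.toReal_mono ENNReal.one_ne_top h
    _ = 1 := by simp

lemma dig_iter (z : ℝ) (n i : ℕ) : dig (gauss^[n] z) i = dig z (n + i) := by
  unfold dig
  rw [← Function.iterate_add_apply, add_comm]

lemma ind_sum {z : ℝ} (hz : Irrational z) (h : z ∈ Ioo (0:ℝ) 1) (c : List ℕ) (N : ℕ) :
    ∑ k ∈ Finset.range N, indicator (Cyl c) (fun _ => (1:ℝ)) (gauss^[k] z) = cs (dig z) c N := by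
  classical
  unfold cs
  rw [Finset.card_filter]
  push_cast
  refine Finset.sum_congr rfl fun n _ => ?_
  have e : gauss^[n] z ∈ Cyl c ↔ ∀ i : Fin c.length, dig z (n + i) = c.get i := by
    unfold Cyl
    simp only [Set.mem_ofPred_eq, dig_iter]
    exact ⟨fun h => h.2, fun h' => ⟨(iter_mem hz h n).2, h'⟩⟩
  by_cases hh : ∀ i : Fin c.length, dig z (n + i) = c.get i
  · rw [indicator_of_mem (e.2 hh), if_pos hh]
  · rw [indicator_of_notMem (fun h' => hh (e.1 h')), if_neg hh]

lemma ae_irr : ∀ᵐ x ∂gam, Irrational x ∧ x ∈ Ioo (0:ℝ) 1 := by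
  apply gam_ac.ae_le
  have hirr : ∀ᵐ x : ℝ, Irrational x := (countable_range ((↑) : ℚ → ℝ)).ae_notMem volume
  filter_upwards [ae_restrict_of_ae hirr, ae_restrict_mem measurableSet_Ioo] with x a b
  exact ⟨a, b⟩

/-- almost every number has the right frequencies -/
lemma ae_typ (c : List ℕ) : ∀ᵐ z ∂gam, Tendsto (fun N : ℕ => (cs (dig z) c N : ℝ) / N) atTop (𝓝 (mu c)) := by
  have hb := Pool.Agent.H165R3.birkhoff erg (indicator (Cyl c) (fun _ => (1:ℝ)))
    (measurable_const.indicator (measurable_Cyl c)) ⟨1, fun x => by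
      by_cases hx : x ∈ Cyl c
      · simp [indicator_of_mem hx]
      · simp [indicator_of_notMem hx]⟩
  filter_upwards [hb, ae_irr] with z hz hi
  have e1 : ∫ x, indicator (Cyl c) (fun _ => (1:ℝ)) x ∂gam = mu c := by
    rw [integral_indicator (measurable_Cyl c), setIntegral_const, smul_eq_mul, mul_one]
    rfl
  rw [e1] at hz
  refine hz.congr fun N => ?_
  rw [ind_sum hi.1 hi.2, div_eq_inv_mul]

/-- atypical numbers -/
def Bad (B : Finset (List ℕ)) (ε : ℝ) (n0 : ℕ) : Set ℝ :=
  {z | z ∈ Ioo (0:ℝ) 1 ∧ ∃ c ∈ B, ∃ N : ℕ, ε * N + n0 < |(cs (dig z) c N : ℝ) - N * mu c|}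

lemma measurable_cs (c : List ℕ) (N : ℕ) : Measurable (fun z => (cs (dig z) c N : ℝ)) := by
  classical
  have : (fun z => (cs (dig z) c N : ℝ)) = fun z => ∑ n ∈ Finset.range N,
      indicator {z : ℝ | ∀ i : Fin c.length, dig z (n + i) = c.get i} (fun _ => (1:ℝ)) z := by
    funext z
    unfold cs
    rw [Finset.card_filter]
    push_cast
    refine Finset.sum_congr rfl fun n _ => ?_
    by_cases hh : ∀ i : Fin c.length, dig z (n + i) = c.get i
    · rw [indicator_of_mem (by exact hh), if_pos hh]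
    · rw [indicator_of_notMem (by exact hh), if_neg hh]
  rw [this]
  refine Finset.measurable_sum _ fun n _ => measurable_const.indicator ?_
  have e : {z : ℝ | ∀ i : Fin c.length, dig z (n + i) = c.get i} =
      ⋂ i : Fin c.length, {z | dig z (n + i) = c.get i} := by
    ext z; simp
  rw [e]
  exact MeasurableSet.iInter fun i => measurable_dig _ (measurableSet_singleton _)

lemma measurable_Bad (B : Finset (List ℕ)) (ε : ℝ) (n0 : ℕ) : MeasurableSet (Bad B ε n0) := by
  have : Bad B ε n0 = Ioo (0:ℝ) 1 ∩ ⋃ c ∈ B, ⋃ N : ℕ,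
      {z | ε * N + n0 < |(cs (dig z) c N : ℝ) - N * mu c|} := by
    ext z; simp [Bad]
  rw [this]
  refine measurableSet_Ioo.inter (Finset.measurableSet_biUnion _ fun c _ => MeasurableSet.iUnion fun N => ?_)
  exact measurableSet_lt measurable_const (((measurable_cs c N).sub_const _).abs)

lemma cs_le (s : ℕ → ℕ) (c : List ℕ) (N : ℕ) : cs s c N ≤ N := by
  unfold cs
  exact (Finset.card_filter_le _ _).trans (by simp)

lemma vol_le_gam {A : Set ℝ} (hA : MeasurableSet A) (h : A ⊆ Ioo (0:ℝ) 1) : volume A ≤ 2 * gam A := by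
  have h1 : volume A ≤ 2 * gm A := by
    unfold gm
    rw [← lintegral_const_mul' _ _ (by simp)]
    have e : A ∩ Ico 0 1 = A := inter_eq_left.2 (h.trans Ioo_subset_Ico_self)
    rw [e, ← setLIntegral_one]
    refine setLIntegral_mono' hA fun x hx => ?_
    have hx0 := (h hx).1
    have hx1 := (h hx).2
    have : (1:ℝ) ≤ 2 * (1 / (1 + x)) := by
      rw [mul_one_div, le_div_iff₀ (by positivity)]
      linarith
    calc (1 : ℝ≥0∞) = ENNReal.ofReal 1 := by simp
      _ ≤ ENNReal.ofReal (2 * (1 / (1 + x))) := ENNReal.ofReal_le_ofReal this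
      _ = 2 * ENNReal.ofReal (1 / (1 + x)) := by
        rw [ENNReal.ofReal_mul (by norm_num)]; norm_num
  have h2 : gm A ≤ gam A := by
    rw [gam_apply hA]
    have h3 : 1 ≤ (ENNReal.ofReal (Real.log 2))⁻¹ := by
      rw [ENNReal.one_le_inv]
      rw [ENNReal.ofReal_le_one]
      have := Real.log_two_lt_d9
      linarith
    calc gm A = 1 * gm A := (one_mul _).symm
      _ ≤ _ := by gcongr
  exact h1.trans (by gcongr)

/-- the atypical set is small -/
lemma bad_small (B : Finset (List ℕ)) {ε η : ℝ} (hε : 0 < ε) (hη : 0 < η) :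
    ∃ n0 : ℕ, volume (Bad B ε n0) ≤ ENNReal.ofReal η := by
  have hanti : Antitone (fun n0 : ℕ => Bad B ε n0) := by
    intro a b hab z hz
    obtain ⟨h1, c, hc, N, h2⟩ := hz
    refine ⟨h1, c, hc, N, lt_of_le_of_lt ?_ h2⟩
    have : (a:ℝ) ≤ b := by exact_mod_cast hab
    linarith
  have hlim := tendsto_measure_iInter_atTop (μ := gam) (s := fun n0 : ℕ => Bad B ε n0)
    (fun n => (measurable_Bad B ε n).nullMeasurableSet) hanti ⟨0, measure_ne_top _ _⟩
  have h0 : gam (⋂ n0 : ℕ, Bad B ε n0) = 0 := by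
    have hae : ∀ᵐ z ∂gam, ∀ c ∈ B, Tendsto (fun N : ℕ => (cs (dig z) c N : ℝ) / N) atTop (𝓝 (mu c)) := by
      rw [eventually_all_finset]
      intro c _
      exact ae_typ c
    have : ∀ᵐ z ∂gam, z ∉ ⋂ n0 : ℕ, Bad B ε n0 := by
      filter_upwards [hae] with z hz hmem
      have key : ∀ c ∈ B, ∃ N0 : ℕ, ∀ N : ℕ, |(cs (dig z) c N : ℝ) - N * mu c| ≤ ε * N + N0 := by
        intro c hc
        obtain ⟨N0, hN0⟩ := Metric.tendsto_atTop.1 (hz c hc) ε hε
        refine ⟨N0, fun N => ?_⟩
        rcases le_total N0 N with h | h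
        · rcases Nat.eq_zero_or_pos N with rfl | hN
          · have : N0 = 0 := by omega
            subst this
            simp [cs]
          · have h1 := hN0 N h
            rw [Real.dist_eq] at h1
            have hN' : (0:ℝ) < N := by exact_mod_cast hN
            have e : (cs (dig z) c N : ℝ) - N * mu c = N * ((cs (dig z) c N : ℝ) / N - mu c) := by
              field_simp
            rw [e, abs_mul, abs_of_pos hN']
            have : (0:ℝ) ≤ N0 := by positivity
            nlinarith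
        · have h1 : (cs (dig z) c N : ℝ) ≤ N := by exact_mod_cast cs_le _ _ _
          have h2 : (0:ℝ) ≤ cs (dig z) c N := by positivity
          have h3 : (N:ℝ) ≤ N0 := by exact_mod_cast h
          have h4 := mu_nonneg c
          have h5 := mu_le_one c
          have h6 : (0:ℝ) ≤ N := by positivity
          rw [abs_le]
          constructor <;> nlinarith
      choose! N0 hN0 using key
      obtain ⟨M, hM⟩ : ∃ M : ℕ, ∀ c ∈ B, N0 c ≤ M := ⟨B.sup N0, fun c hc => Finset.le_sup hc⟩
      have h1 := mem_iInter.1 hmem M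
      obtain ⟨_, c, hc, N, h2⟩ := h1
      have h3 := hN0 c hc N
      have h4 : (N0 c : ℝ) ≤ M := by exact_mod_cast hM c hc
      linarith
    exact measure_eq_zero_iff_ae_notMem.2 this
  rw [h0] at hlim
  have hη2 : (0 : ℝ≥0∞) < ENNReal.ofReal (η / 2) := ENNReal.ofReal_pos.2 (by positivity)
  obtain ⟨n0, hn0⟩ := ((tendsto_order.1 hlim).2 _ hη2).exists
  refine ⟨n0, (vol_le_gam (measurable_Bad B ε n0) (fun z hz => hz.1)).trans ?_⟩
  calc 2 * gam (Bad B ε n0) ≤ 2 * ENNReal.ofReal (η / 2) := by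
        gcongr
        exact hn0.le
    _ = ENNReal.ofReal η := by
        rw [show (2 : ℝ≥0∞) = ENNReal.ofReal 2 by simp, ← ENNReal.ofReal_mul (by norm_num)]
        congr 1; ring

end Pool.Agent.N456.CN
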