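import Pool.Agent.R357.CF.Steer

/-!
Finite words of continued fraction digits: continuants of concatenations and reversals, words of even
length and rational numbers, occurrences of blocks.
-/

set_option autoImplicit false

open Filter Set
open scoped Topology

namespace Pool.Agent.N456.CN

open Pool.Agent.W811.Stu Pool.Agent.W174.Stu Pool.Agent.R357.CF

/-- numerator of a word -/
def Pn (w : List ℕ) : ℕ := (cq w).1

/-- second numerator of a word -/
def Pn' (w : List ℕ) : ℕ := (cq w).2.1

lemma cq_eta (w : List ℕ) : cq w = (Pn w, Pn' w, Q w, Q' w) := rfl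

lemma cq_app (u v : List ℕ) : Pn (u ++ v) = Pn u * Q v + Pn' u * Pn v ∧
    Pn' (u ++ v) = Pn u * Q' v + Pn' u * Pn' v ∧
    Q (u ++ v) = Q u * Q v + Q' u * Pn v ∧
    Q' (u ++ v) = Q u * Q' v + Q' u * Pn' v := by
  induction u with
  | nil => simp [Pn, Pn', Q, Q', cq]
  | cons d u ih =>
    obtain ⟨h1, h2, h3, h4⟩ := ih
    simp only [Pn, Pn', Q, Q', List.cons_append, cq] at *
    refine ⟨h3, h4, ?_, ?_⟩
    · rw [h3, h1]; ring
    · rw [h4, h2]; ring

lemma Q_app (u v : List ℕ) : Q (u ++ v) = Q u * Q v + Q' u * Pn v := (cq_app u v).2.2.1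

lemma Q_mul_le (u v : List ℕ) : Q u * Q v ≤ Q (u ++ v) := by
  rw [Q_app]; exact Nat.le_add_right _ _

lemma Q_le_app {u v : List ℕ} (hv : Good v) : Q u ≤ Q (u ++ v) := by
  have := Q_pos hv
  calc Q u = Q u * 1 := (mul_one _).symm
    _ ≤ Q u * Q v := Nat.mul_le_mul le_rfl this
    _ ≤ _ := Q_mul_le u v

lemma Q_le_app' {u v : List ℕ} (hu : Good u) : Q v ≤ Q (u ++ v) := by
  have := Q_pos hu
  calc Q v = 1 * Q v := (one_mul _).symm
    _ ≤ Q u * Q v := Nat.mul_le_mul this le_rfl
    _ ≤ _ := Q_mul_le u v

lemma cq_rev (w : List ℕ) : Pn w.reverse = Q' w ∧ Pn' w.reverse = Pn' w ∧ Q w.reverse = Q w ∧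
    Q' w.reverse = Pn w := by
  induction w with
  | nil => simp [Pn, Pn', Q, Q', cq]
  | cons d w ih =>
    obtain ⟨h1, h2, h3, h4⟩ := ih
    simp only [Pn, Pn', Q, Q', List.reverse_cons, cq_append, cq] at *
    refine ⟨?_, ?_, ?_, ?_⟩
    · rw [h1, h2]
    · rw [h1]
    · rw [h3, h4]
    · rw [h3]

lemma Q_rev (w : List ℕ) : Q w.reverse = Q w := (cq_rev w).2.2.1

lemma Q'_rev (w : List ℕ) : Q' w.reverse = Pn w := (cq_rev w).2.2.2

lemma good_rev {w : List ℕ} (h : Good w) : Good w.reverse := fun d hd => h d (List.mem_reverse.1 hd)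

lemma good_take {w : List ℕ} (h : Good w) (n : ℕ) : Good (w.take n) :=
  fun d hd => h d (List.mem_of_mem_take hd)

lemma good_drop {w : List ℕ} (h : Good w) (n : ℕ) : Good (w.drop n) :=
  fun d hd => h d (List.mem_of_mem_drop hd)

lemma Good.left {u v : List ℕ} (h : Good (u ++ v)) : Good u := fun d hd => h d (by simp [hd])

lemma Good.right {u v : List ℕ} (h : Good (u ++ v)) : Good v := fun d hd => h d (by simp [hd])

lemma phi_zero (w : List ℕ) (hw : Good w) : phi w 0 = (Pn w : ℝ) / Q w := by
  have := (phi_formula hw (z := 0) le_rfl).2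
  rw [this]; simp [Pn]

lemma cop (w : List ℕ) : Nat.Coprime (Pn w) (Q w) := by
  have h := det (w := w)
  have h1 : ((Pn' w : ℤ)) * Q w - Pn w * Q' w = (-1) ^ w.length := by
    have h2 : ((((Pn' w : ℤ)) * Q w - Pn w * Q' w : ℤ) : ℝ) = (((-1) ^ w.length : ℤ) : ℝ) := by
      push_cast
      exact h
    exact_mod_cast h2
  rw [← Nat.isCoprime_iff_coprime]
  rcases neg_one_pow_eq_or ℤ w.length with e | e
  · rw [e] at h1
    exact ⟨-(Q' w : ℤ), (Pn' w : ℤ), by linarith⟩
  · rw [e] at h1
    exact ⟨(Q' w : ℤ), -(Pn' w : ℤ), by linarith⟩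

/-- values of words: even length means `[0,1)`, odd length means `(0,1]` -/
lemma phi_par {w : List ℕ} (hw : Good w) : phi w 0 ∈ Icc (0:ℝ) 1 ∧
    (Even w.length → phi w 0 < 1) ∧ (¬ Even w.length → 0 < phi w 0) := by
  induction w with
  | nil => simp [phi]
  | cons d w ih =>
    obtain ⟨h1, h2⟩ := Good.cons hw
    obtain ⟨⟨a, b⟩, c, e⟩ := ih h2
    have hd : (1:ℝ) ≤ d := by exact_mod_cast h1
    have hpos : (0:ℝ) < d + phi w 0 := by linarith
    refine ⟨phi_mem_Icc hw ⟨le_rfl, zero_le_one⟩, ?_, ?_⟩
    · intro h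
      rw [List.length_cons, Nat.even_add_one] at h
      have := e h
      simp only [phi]
      rw [div_lt_one hpos]
      linarith
    · intro h
      simp only [phi]
      positivity

/-- uniqueness -/
lemma uniq : ∀ {w w' : List ℕ}, Good w → Good w' → (Even w.length ↔ Even w'.length) →
    phi w 0 = phi w' 0 → w = w' := by
  intro w
  induction w with
  | nil =>
    intro w' _ hw' hpar h
    cases w' with
    | nil => rfl
    | cons d w' =>
      exfalso
      obtain ⟨h1, h2⟩ := Good.cons hw'
      have hd : (1:ℝ) ≤ d := by exact_mod_cast h1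
      have := (phi_par h2).1.1
      have : 0 < phi (d :: w') 0 := by simp only [phi]; positivity
      simp only [phi] at h this
      linarith
  | cons d w ih =>
    intro w' hw hw' hpar h
    cases w' with
    | nil =>
      exfalso
      obtain ⟨h1, h2⟩ := Good.cons hw
      have hd : (1:ℝ) ≤ d := by exact_mod_cast h1
      have := (phi_par h2).1.1
      have : 0 < phi (d :: w) 0 := by simp only [phi]; positivity
      simp only [phi] at h this
      linarith
    | cons d' w' =>
      obtain ⟨h1, h2⟩ := Good.cons hw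
      obtain ⟨h1', h2'⟩ := Good.cons hw'
      have hd : (1:ℝ) ≤ d := by exact_mod_cast h1
      have hd' : (1:ℝ) ≤ d' := by exact_mod_cast h1'
      obtain ⟨⟨a, b⟩, c, e⟩ := phi_par h2
      obtain ⟨⟨a', b'⟩, c', e'⟩ := phi_par h2'
      have hpar' : Even w.length ↔ Even w'.length := by
        simp only [List.length_cons, Nat.even_add_one] at hpar
        tauto
      have hs : (d:ℝ) + phi w 0 = d' + phi w' 0 := by
        simp only [phi] at h
        rw [div_eq_div_iff (by positivity) (by positivity)] at h
        linarith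
      have hdd : d = d' := by
        by_cases hE : Even w.length
        · have h3 := c hE
          have h4 := c' (hpar'.1 hE)
          have k1 : (d:ℝ) < d' + 1 := by linarith
          have k2 : (d':ℝ) < d + 1 := by linarith
          have k1' : d < d' + 1 := by exact_mod_cast k1
          have k2' : d' < d + 1 := by exact_mod_cast k2
          omega
        · have h3 := e hE
          have h4 := e' (fun h => hE (hpar'.2 h))
          have k1 : (d:ℝ) < d' + 1 := by linarith
          have k2 : (d':ℝ) < d + 1 := by linarith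
          have k1' : d < d' + 1 := by exact_mod_cast k1
          have k2' : d' < d + 1 := by exact_mod_cast k2
          omega
      subst hdd
      rw [ih h2 h2' hpar' (by linarith)]

/-- existence: every rational number of `[0,1)` has a word of even length, every one of `(0,1]` has a
word of odd length -/
lemma exW : ∀ n a b : ℕ, 1 ≤ b → a + b ≤ n →
    ((a < b → ∃ w, Good w ∧ Even w.length ∧ phi w 0 = (a:ℝ) / b) ∧
     (1 ≤ a → a ≤ b → ∃ w, Good w ∧ ¬ Even w.length ∧ phi w 0 = (a:ℝ) / b)) := by
  intro n
  induction n with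
  | zero => intro a b hb h; omega
  | succ n ih =>
    intro a b hb hn
    constructor
    · intro hab
      rcases Nat.eq_zero_or_pos a with rfl | ha
      · exact ⟨[], good_nil, by simp, by simp [phi]⟩
      · -- b = d * a + r with 1 ≤ r ≤ a
        set d := (b - 1) / a with hd
        have hda : d * a ≤ b - 1 := Nat.div_mul_le_self _ _
        have hda2 : b - 1 < d * a + a := by
          have := Nat.lt_div_mul_add (a := b - 1) ha
          rw [← hd] at this
          exact this
        have hd1 : 1 ≤ d := by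
          rw [hd, Nat.one_le_div_iff ha]; omega
        obtain ⟨w, hw1, hw2, hw3⟩ := (ih (b - d * a) a ha (by
          have : a ≤ d * a := Nat.le_mul_of_pos_left a hd1
          omega)).2 (by omega) (by omega)
        refine ⟨d :: w, ?_, ?_, ?_⟩
        · intro e he
          rcases List.mem_cons.1 he with rfl | he
          · exact hd1
          · exact hw1 e he
        · rw [List.length_cons, Nat.even_add_one]; exact hw2
        · simp only [phi]
          rw [hw3, Nat.cast_sub (by omega)]
          have ha' : (0:ℝ) < a := by exact_mod_cast ha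
          have hb' : (0:ℝ) < b := by exact_mod_cast hb
          push_cast
          have e : (d:ℝ) + ((b:ℝ) - d * a) / a = b / a := by
            rw [sub_div, mul_div_assoc, div_self ha'.ne']; ring
          rw [e, one_div_div]
    · intro ha hab
      set d := b / a with hd
      have hda : d * a ≤ b := Nat.div_mul_le_self _ _
      have hda2 : b < d * a + a := by
        have := Nat.lt_div_mul_add (a := b) (b := a) (by omega)
        rw [← hd] at this
        exact this
      have hd1 : 1 ≤ d := by
        rw [hd, Nat.one_le_div_iff (by omega)]; omega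
      obtain ⟨w, hw1, hw2, hw3⟩ := (ih (b - d * a) a (by omega) (by
        have : a ≤ d * a := Nat.le_mul_of_pos_left a hd1
        omega)).1 (by omega)
      refine ⟨d :: w, ?_, ?_, ?_⟩
      · intro e he
        rcases List.mem_cons.1 he with rfl | he
        · exact hd1
        · exact hw1 e he
      · rw [List.length_cons, Nat.even_add_one, not_not]; exact hw2
      · simp only [phi]
        rw [hw3, Nat.cast_sub (by omega)]
        have ha' : (0:ℝ) < a := by exact_mod_cast ha
        push_cast
        have e : (d:ℝ) + ((b:ℝ) - d * a) / a = b / a := by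
          rw [sub_div, mul_div_assoc, div_self ha'.ne']; ring
        rw [e, one_div_div]

/-- the denominator divides -/
lemma Q_dvd {w : List ℕ} (hw : Good w) {P q : ℕ} (hq : 0 < q) (h : phi w 0 = (P:ℝ) / q) :
    Q w ∣ q ∧ P * Q w = q * Pn w := by
  have hQ : (0:ℝ) < Q w := by exact_mod_cast Q_pos hw
  have hq' : (0:ℝ) < q := by exact_mod_cast hq
  rw [phi_zero w hw, div_eq_div_iff hQ.ne' hq'.ne'] at h
  have h1 : Pn w * q = P * Q w := by exact_mod_cast h
  refine ⟨?_, by rw [← h1]; ring⟩
  have h2 : Q w ∣ Pn w * q := ⟨P, by rw [h1]; ring⟩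
  exact (cop w).symm.dvd_of_dvd_mul_left h2

/-- the word of even length of `P / q` -/
noncomputable def Wd (q P : ℕ) : List ℕ := by
  classical
  exact if h : P < q then
    ((exW (P + q) P q (by omega) le_rfl).1 h).choose else []

lemma Wd_spec {q P : ℕ} (h : P < q) : Good (Wd q P) ∧ Even (Wd q P).length ∧
    phi (Wd q P) 0 = (P:ℝ) / q := by
  unfold Wd
  rw [dif_pos h]
  exact ((exW (P + q) P q (by omega) le_rfl).1 h).choose_spec

lemma Wd_dvd {q P : ℕ} (h : P < q) : Q (Wd q P) ∣ q :=
  (Q_dvd (Wd_spec h).1 (by omega) (Wd_spec h).2.2).1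

lemma Wd_uniq {q P : ℕ} (h : P < q) {w : List ℕ} (h1 : Good w) (h2 : Even w.length)
    (h3 : phi w 0 = (P:ℝ) / q) : Wd q P = w := by
  obtain ⟨a, b, c⟩ := Wd_spec h
  exact uniq a h1 (by tauto) (by rw [c, h3])

/-- reversal of residues -/
noncomputable def sg (q P : ℕ) : ℕ := q / Q (Wd q P) * Q' (Wd q P)

lemma sg_spec {q P : ℕ} (h : P < q) : sg q P < q ∧ Wd q (sg q P) = (Wd q P).reverse := by
  obtain ⟨a, b, c⟩ := Wd_spec h
  obtain ⟨e, he⟩ := Wd_dvd h
  have hQ := Q_pos a
  have hq : 0 < q := by omega
  have hQ' : (0:ℝ) < Q (Wd q P) := by exact_mod_cast hQ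
  have hq' : (0:ℝ) < q := by exact_mod_cast hq
  have hdiv : q / Q (Wd q P) = e := Nat.div_eq_of_eq_mul_right (by omega) he
  have he0 : 0 < e := by
    rcases Nat.eq_zero_or_pos e with h0 | h0
    · rw [h0, mul_zero] at he; omega
    · exact h0
  have hrev : phi (Wd q P).reverse 0 = (Q' (Wd q P) : ℝ) / Q (Wd q P) := by
    rw [phi_zero _ (good_rev a), (cq_rev _).1, Q_rev]
  have hlt : Q' (Wd q P) < Q (Wd q P) := by
    have := (phi_par (good_rev a)).2.1 (by rw [List.length_reverse]; exact b)
    rw [hrev, div_lt_one hQ'] at this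
    exact_mod_cast this
  have h1 : sg q P < q := by
    unfold sg
    rw [hdiv]
    calc e * Q' (Wd q P) < e * Q (Wd q P) := Nat.mul_lt_mul_of_pos_left hlt he0
      _ = q := by rw [mul_comm]; exact he.symm
  refine ⟨h1, Wd_uniq h1 (good_rev a) (by rw [List.length_reverse]; exact b) ?_⟩
  rw [hrev]
  unfold sg
  rw [hdiv, div_eq_div_iff hQ'.ne' hq'.ne']
  have : (q:ℝ) = Q (Wd q P) * e := by exact_mod_cast he
  rw [this]
  push_cast
  ring

lemma Wd_inj {q P P' : ℕ} (h : P < q) (h' : P' < q) (e : Wd q P = Wd q P') : P = P' := by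
  have a := (Wd_spec h).2.2
  have b := (Wd_spec h').2.2
  rw [e, b] at a
  have hq' : (0:ℝ) < q := by exact_mod_cast (show 0 < q by omega)
  rw [div_left_inj' hq'.ne'] at a
  exact_mod_cast a.symm

lemma sg_sg {q P : ℕ} (h : P < q) : sg q (sg q P) = P := by
  obtain ⟨a, b⟩ := sg_spec h
  obtain ⟨c, d⟩ := sg_spec a
  apply Wd_inj c h
  rw [d, b, List.reverse_reverse]

/-- a word whose value lies in an open cylinder has the word of the cylinder as a prefix -/
lemma prefix_of_mem : ∀ {w0 w : List ℕ}, Good w0 → Good w → (∃ t ∈ Ioo (0:ℝ) 1, phi w0 t = phi w 0) →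
    w0 <+: w := by
  intro w0
  induction w0 with
  | nil => intro w _ _ _; exact List.nil_prefix
  | cons d w0 ih =>
    intro w hw0 hw ⟨t, ht, he⟩
    obtain ⟨h1, h2⟩ := Good.cons hw0
    have hd : (1:ℝ) ≤ d := by exact_mod_cast h1
    have hm := phi_mem h2 ht
    cases w with
    | nil =>
      exfalso
      simp only [phi] at he
      have : 0 < 1 / ((d:ℝ) + phi w0 t) := by have := hm.1; positivity
      linarith
    | cons a w =>
      obtain ⟨k1, k2⟩ := Good.cons hw
      have ha : (1:ℝ) ≤ a := by exact_mod_cast k1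
      have hm' := (phi_par k2).1
      simp only [phi] at he
      have hp1 := hm.1
      have hp2 := hm'.1
      rw [div_eq_div_iff (by positivity) (by positivity)] at he
      have hs : (a:ℝ) + phi w 0 = d + phi w0 t := by linarith
      have j1 : (a:ℝ) < d + 1 := by linarith [hm.2]
      have j2 : (d:ℝ) < a + 1 := by linarith [hm'.2]
      have j1' : a < d + 1 := by exact_mod_cast j1
      have j2' : d < a + 1 := by exact_mod_cast j2
      have hda : a = d := by omega
      subst hda
      rw [List.cons_prefix_cons]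
      exact ⟨rfl, ih h2 k2 ⟨t, ht, by linarith⟩⟩

/-- the value of a word lies in the closed cylinder of each prefix -/
lemma phi_prefix_mem {u v : List ℕ} (hv : Good v) : ∃ t ∈ Icc (0:ℝ) 1, phi u t = phi (u ++ v) 0 :=
  ⟨phi v 0, (phi_par hv).1, (phi_append u v 0).symm⟩

end Pool.Agent.N456.CN
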